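import Mathlib

set_option autoImplicit false

/-!
# Isometric actions of free groups on R-trees; closed (unprojectivized) Outer space
-/

namespace Pool.Agent.H472R3

/-- An R-tree: a nonempty metric space which is geodesic (any two points are joined by an isometric
copy of a real interval) and 0-hyperbolic (four point condition). -/
structure IsRTree (T : Type) [MetricSpace T] : Prop where
  nonempty : Nonempty T
  geodesic : ∀ x y : T, ∃ γ : ℝ → T, γ 0 = x ∧ γ (dist x y) = y ∧
    ∀ s ∈ Set.Icc 0 (dist x y), ∀ t ∈ Set.Icc 0 (dist x y), dist (γ s) (γ t) = |s - t|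
  zeroHyperbolic : ∀ x y z w : T,
    dist x y + dist z w ≤ max (dist x z + dist y w) (dist x w + dist y z)

/-- An action by isometries of the free group of rank `N` on an R-tree. -/
structure FTree (N : ℕ) where
  T : Type
  metric : MetricSpace T
  action : MulAction (FreeGroup (Fin N)) T
  isometric : ∀ (g : FreeGroup (Fin N)) (x y : T), dist (g • x) (g • y) = dist x y
  isRTree : IsRTree T

attribute [instance] FTree.metric FTree.action

namespace FTree

variable {N : ℕ}

/-- The translation length function of the action, `g ↦ inf_x d(x, g x)`. -/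
noncomputable def len (A : FTree N) (g : FreeGroup (Fin N)) : ℝ := ⨅ x : A.T, dist x (g • x)

/-- `A` and `B` are the same point: there is an equivariant isometry between them. -/
def Same (A B : FTree N) : Prop :=
  ∃ f : A.T ≃ᵢ B.T, ∀ (g : FreeGroup (Fin N)) (x : A.T), f (g • x) = g • f x

/-- The action is free. -/
def Free (A : FTree N) : Prop := ∀ (g : FreeGroup (Fin N)) (x : A.T), g • x = x → g = 1

/-- The orbits are discrete. -/
def DiscreteOrbits (A : FTree N) : Prop :=
  ∀ x : A.T, ∃ ε > 0, ∀ g : FreeGroup (Fin N), g • x ≠ x → ε ≤ dist x (g • x)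

/-- The action is minimal: every nonempty invariant subtree (i.e. invariant subset which contains
the segment between any two of its points) is the whole tree. -/
def Minimal (A : FTree N) : Prop :=
  ∀ Y : Set A.T, Y.Nonempty →
    (∀ x ∈ Y, ∀ y ∈ Y, ∀ z, dist x z + dist z y = dist x y → z ∈ Y) →
    (∀ g : FreeGroup (Fin N), ∀ y ∈ Y, g • y ∈ Y) → Y = Set.univ

/-- The action is nontrivial: there is no global fixed point. -/
def Nontriv (A : FTree N) : Prop := ∀ x : A.T, ∃ g : FreeGroup (Fin N), g • x ≠ x

/-- The action is very small: the stabiliser of every nondegenerate arc `[x,y]` is trivial or a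
maximal cyclic subgroup, and the stabiliser of every tripod (spanned by `x,y,z`, none of which lies
between the other two) is trivial. -/
def VerySmall (A : FTree N) : Prop :=
  (∀ x y : A.T, x ≠ y →
    (MulAction.stabilizer (FreeGroup (Fin N)) x ⊓ MulAction.stabilizer (FreeGroup (Fin N)) y = ⊥ ∨
      ∃ c : FreeGroup (Fin N),
        MulAction.stabilizer (FreeGroup (Fin N)) x ⊓ MulAction.stabilizer (FreeGroup (Fin N)) y =
          Subgroup.zpowers c ∧
        ∀ d : FreeGroup (Fin N), Subgroup.zpowers c ≤ Subgroup.zpowers d →
          Subgroup.zpowers c = Subgroup.zpowers d)) ∧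
  ∀ x y z : A.T, dist x y < dist x z + dist z y → dist y z < dist y x + dist x z →
    dist x z < dist x y + dist y z →
    ∀ g : FreeGroup (Fin N), g • x = x → g • y = y → g • z = z → g = 1

/-- `A` is a point of the unprojectivized Outer space `cv_N`. -/
def InCV (A : FTree N) : Prop := A.Free ∧ A.Minimal ∧ A.DiscreteOrbits

/-- `A` is a point of the closure of `cv_N`: a minimal, nontrivial, very small action whose
translation length function is a pointwise limit of translation length functions of points of
`cv_N`. -/
def InClosure (A : FTree N) : Prop :=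
  A.Minimal ∧ A.Nontriv ∧ A.VerySmall ∧
    A.len ∈ closure {l : FreeGroup (Fin N) → ℝ | ∃ B : FTree N, B.InCV ∧ B.len = l}

/-- The set `S` pins down `A`: every point of the closure of `cv_N` with the same translation
lengths as `A` on `S` is equal to `A`. -/
def PinsDown (S : Set (FreeGroup (Fin N))) (A : FTree N) : Prop :=
  ∀ B : FTree N, B.InClosure → (∀ g ∈ S, B.len g = A.len g) → B.Same A

end FTree

end Pool.Agent.H472R3
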