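import Mathlib

set_option autoImplicit false

/-!
# The R-tree spanned by a 0-hyperbolic (pseudo)metric
-/

namespace Pool.Agent.H472R3.Hull

/-- Data of a 0-hyperbolic distance on a type. -/
structure Hyp (X : Type) where
  d : X → X → ℝ
  self : ∀ x, d x x = 0
  symm : ∀ x y, d x y = d y x
  um : ∀ a x y z, min ((d a x + d a y - d x y) / 2) ((d a y + d a z - d y z) / 2) ≤
    (d a x + d a z - d x z) / 2

variable {X : Type} (H : Hyp X)

/-- Gromov product. -/
noncomputable def Hyp.gp (a x y : X) : ℝ := (H.d a x + H.d a y - H.d x y) / 2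

theorem Hyp.ultra (a x y z : X) : min (H.gp a x y) (H.gp a y z) ≤ H.gp a x z := H.um a x y z

theorem Hyp.gp_comm (a x y : X) : H.gp a x y = H.gp a y x := by
  unfold Hyp.gp; rw [H.symm x y]; ring

theorem Hyp.gp_nonneg (a x y : X) : 0 ≤ H.gp a x y := by
  have h := H.ultra a x a y
  have h1 : H.gp a x a = 0 := by
    unfold Hyp.gp; rw [H.self, H.symm x a]; ring
  have h2 : H.gp a a y = 0 := by
    unfold Hyp.gp; rw [H.self]; ring
  rw [h1, h2] at h
  simpa using h

theorem Hyp.gp_self (a x : X) : H.gp a x x = H.d a x := by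
  unfold Hyp.gp; rw [H.self]; ring

theorem Hyp.gp_le (a x y : X) : H.gp a x y ≤ H.d a x := by
  have h := H.ultra a x y x
  rw [H.gp_comm a y x, min_self, H.gp_self] at h
  exact h

theorem Hyp.d_nonneg (x y : X) : 0 ≤ H.d x y := by
  have := H.gp_nonneg x y y
  rwa [H.gp_self] at this

/-- The function `distance to the point of [a,b] at distance t from a`. -/
noncomputable def Hyp.pt (a b : X) (t : ℝ) : X → ℝ :=
  fun z => H.d a z + t - 2 * min t (H.gp a b z)

theorem Hyp.pt_base (a b : X) {t : ℝ} (h0 : 0 ≤ t) : H.pt a b t a = t := by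
  have h1 : H.gp a b a = 0 := by
    unfold Hyp.gp; rw [H.self, H.symm b a]; ring
  unfold Hyp.pt
  rw [h1, H.self, min_eq_right h0]
  ring

theorem Hyp.pt_end (a b : X) {t : ℝ} (h1 : t ≤ H.d a b) : H.pt a b t b = H.d a b - t := by
  unfold Hyp.pt
  rw [H.gp_self, min_eq_left h1]
  ring

theorem Hyp.pt_swap (a b : X) (t : ℝ) :
    H.pt a b t = H.pt b a (H.d a b - t) := by
  funext z
  unfold Hyp.pt Hyp.gp
  rw [H.symm b a]
  rcases min_cases t ((H.d a b + H.d a z - H.d b z) / 2) with h | h <;>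
  rcases min_cases (H.d a b - t) ((H.d a b + H.d b z - H.d a z) / 2) with h' | h' <;>
  rw [h.1, h'.1] <;> linarith [h.2, h'.2]

/-- Change of one endpoint. -/
theorem Hyp.pt_change (a b o : X) {t : ℝ} (h : t ≤ H.gp a b o) : H.pt a b t = H.pt a o t := by
  funext z
  unfold Hyp.pt
  have h1 := H.ultra a b o z
  have h2 := H.ultra a o b z
  rw [H.gp_comm a o b] at h2
  have : min t (H.gp a b z) = min t (H.gp a o z) := by
    apply le_antisymm
    · apply le_min (min_le_left _ _)
      refine le_trans ?_ h2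
      exact min_le_min_right _ h
    · apply le_min (min_le_left _ _)
      refine le_trans ?_ h1
      exact min_le_min_right _ h
  rw [this]

/-- The points of the tree. -/
def Hyp.Pt : Type := {f : X → ℝ // ∃ a b t, 0 ≤ t ∧ t ≤ H.d a b ∧ f = H.pt a b t}

theorem Hyp.root (o : X) (f : H.Pt) : ∃ x, 0 ≤ f.1 o ∧ f.1 o ≤ H.d o x ∧ f.1 = H.pt o x (f.1 o) := by
  -- first case lemma
  have key : ∀ a b t, 0 ≤ t → t ≤ H.d a b → t ≤ H.gp a b o →
      ∃ x, 0 ≤ H.pt a b t o ∧ H.pt a b t o ≤ H.d o x ∧ H.pt a b t = H.pt o x (H.pt a b t o) := by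
    intro a b t h0 h1 h2
    have h3 : t ≤ H.d a o := le_trans h2 (by rw [H.gp_comm]; exact H.gp_le _ _ _)
    have e1 : H.pt a b t = H.pt o a (H.d a o - t) := by
      rw [H.pt_change a b o h2, H.pt_swap a o t]
    refine ⟨a, ?_⟩
    rw [e1, H.pt_base o a (by linarith)]
    refine ⟨by linarith, by rw [H.symm o a]; linarith, rfl⟩
  obtain ⟨f, a, b, t, h0, h1, rfl⟩ := f
  show ∃ x, 0 ≤ H.pt a b t o ∧ H.pt a b t o ≤ H.d o x ∧ H.pt a b t = H.pt o x (H.pt a b t o)
  rcases le_total t (H.gp a b o) with h2 | h2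
  · exact key a b t h0 h1 h2
  · rw [H.pt_swap a b t]
    apply key b a (H.d a b - t) (by linarith) (by rw [H.symm b a]; linarith)
    unfold Hyp.gp at h2 ⊢
    rw [H.symm b a]
    linarith

/-- Distance between two points written from the same root. -/
theorem Hyp.sup_formula (o x y : X) {t s : ℝ} (_ht : 0 ≤ t) (ht' : t ≤ H.d o x) (_hs : 0 ≤ s)
    (hs' : s ≤ H.d o y) :
    (∀ z, |H.pt o x t z - H.pt o y s z| ≤ t + s - 2 * min (min t s) (H.gp o x y)) ∧
    ∃ z, |H.pt o x t z - H.pt o y s z| = t + s - 2 * min (min t s) (H.gp o x y) := by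
  have upper : ∀ (x y : X) (t s : ℝ) (z : X), H.pt o x t z - H.pt o y s z ≤
      t + s - 2 * min (min t s) (H.gp o x y) := by
    intro x y t s z
    unfold Hyp.pt
    have hu := H.ultra o x y z
    have : min s (H.gp o y z) + min (min t s) (H.gp o x y) ≤ s + min t (H.gp o x z) := by
      rcases min_cases t (H.gp o x z) with h | h <;> rw [h.1]
      · have := min_le_left s (H.gp o y z)
        have h3 := min_le_left (min t s) (H.gp o x y)
        have h4 := min_le_left t s
        linarith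
      · have a1 := min_le_left s (H.gp o y z)
        have a2 := min_le_right s (H.gp o y z)
        have a3 := min_le_left (min t s) (H.gp o x y)
        have a4 := min_le_right (min t s) (H.gp o x y)
        have a5 := min_le_right t s
        rcases min_cases (H.gp o x y) (H.gp o y z) with h' | h' <;> rw [h'.1] at hu <;> linarith
    linarith
  have hcomm : min (min s t) (H.gp o y x) = min (min t s) (H.gp o x y) := by
    rw [min_comm s t, H.gp_comm]
  constructor
  · intro z
    rw [abs_le]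
    constructor
    · have := upper y x s t z
      rw [hcomm] at this
      linarith
    · exact upper x y t s z
  · rcases le_total (min s (H.gp o x y)) t with h | h
    · refine ⟨x, ?_⟩
      have e1 : H.pt o x t x = H.d o x - t := H.pt_end o x ht'
      have e2 : H.pt o y s x = H.d o x + s - 2 * min s (H.gp o x y) := by
        unfold Hyp.pt; rw [H.gp_comm o y x]
      have e3 : min (min t s) (H.gp o x y) = min s (H.gp o x y) := by
        rw [min_assoc]; exact min_eq_right h
      rw [e1, e2, e3, abs_sub_comm, abs_of_nonneg]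
      · ring
      · have := min_le_left s (H.gp o x y)
        linarith
    · refine ⟨y, ?_⟩
      have e1 : H.pt o y s y = H.d o y - s := H.pt_end o y hs'
      have e2 : H.pt o x t y = H.d o y + t - 2 * min t (H.gp o x y) := rfl
      have a1 := min_le_left s (H.gp o x y)
      have a2 := min_le_right s (H.gp o x y)
      have e4 : min t (H.gp o x y) = t := min_eq_left (by linarith)
      have e3 : min (min t s) (H.gp o x y) = t := by
        rw [min_eq_left (show t ≤ s by linarith), e4]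
      rw [e1, e2, e3, e4, abs_of_nonneg]
      · ring
      · linarith

theorem Hyp.sup_attained (f g : H.Pt) : ∃ z, ∀ w, |f.1 w - g.1 w| ≤ |f.1 z - g.1 z| := by
  obtain ⟨f, hf⟩ := f
  obtain ⟨g, hg⟩ := g
  obtain ⟨a, b, t, h0, h1, rfl⟩ := hf
  obtain ⟨x, hx0, hx1, hx⟩ := H.root a ⟨H.pt a b t, a, b, t, h0, h1, rfl⟩
  obtain ⟨y, hy0, hy1, hy⟩ := H.root a ⟨g, hg⟩
  obtain ⟨k1, z, k2⟩ := H.sup_formula a x y hx0 hx1 hy0 hy1
  refine ⟨z, fun w => ?_⟩
  show |H.pt a b t w - g w| ≤ |H.pt a b t z - g z|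
  have hx' : H.pt a b t = H.pt a x (H.pt a b t a) := hx
  have hy' : g = H.pt a y (g a) := hy
  rw [hx', hy', k2]
  exact k1 w

noncomputable instance : Dist H.Pt := ⟨fun f g => ⨆ z, |f.1 z - g.1 z|⟩

theorem Hyp.dist_def (f g : H.Pt) : dist f g = ⨆ z, |f.1 z - g.1 z| := rfl

theorem Hyp.dist_eq_of (f g : H.Pt) {v : ℝ} (h1 : ∀ z, |f.1 z - g.1 z| ≤ v)
    (h2 : ∃ z, |f.1 z - g.1 z| = v) : dist f g = v := by
  rw [H.dist_def]
  apply IsGreatest.csSup_eq
  refine ⟨?_, ?_⟩
  · obtain ⟨z, hz⟩ := h2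
    exact ⟨z, hz⟩
  · rintro _ ⟨z, rfl⟩
    exact h1 z

theorem Hyp.exists_dist (f g : H.Pt) : ∃ z, dist f g = |f.1 z - g.1 z| ∧
    ∀ w, |f.1 w - g.1 w| ≤ |f.1 z - g.1 z| := by
  obtain ⟨z, hz⟩ := H.sup_attained f g
  exact ⟨z, H.dist_eq_of f g hz ⟨z, rfl⟩, hz⟩

theorem Hyp.le_dist (f g : H.Pt) (w : X) : |f.1 w - g.1 w| ≤ dist f g := by
  obtain ⟨z, h1, h2⟩ := H.exists_dist f g
  rw [h1]; exact h2 w

noncomputable instance : MetricSpace H.Pt where
  dist_self f := by
    obtain ⟨z, h1, _⟩ := H.exists_dist f f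
    rw [h1]; simp
  dist_comm f g := by
    rw [H.dist_def, H.dist_def]
    congr 1
    funext z
    exact abs_sub_comm _ _
  dist_triangle f g h := by
    obtain ⟨z, h1, _⟩ := H.exists_dist f h
    rw [h1]
    have e1 := H.le_dist f g z
    have e2 := H.le_dist g h z
    calc |f.1 z - h.1 z| = |(f.1 z - g.1 z) + (g.1 z - h.1 z)| := by ring_nf
      _ ≤ |f.1 z - g.1 z| + |g.1 z - h.1 z| := abs_add_le _ _
      _ ≤ _ := by linarith
  eq_of_dist_eq_zero := by
    intro f g hfg
    apply Subtype.ext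
    funext z
    have := H.le_dist f g z
    rw [hfg] at this
    have h2 := abs_nonneg (f.1 z - g.1 z)
    have h3 : |f.1 z - g.1 z| = 0 := le_antisymm this h2
    rw [abs_eq_zero] at h3
    linarith

/-- The point of the tree at distance `t` from `o` on `[o,x]`. -/
noncomputable def Hyp.P (o x : X) (t : ℝ) (h0 : 0 ≤ t) (h1 : t ≤ H.d o x) : H.Pt :=
  ⟨H.pt o x t, o, x, t, h0, h1, rfl⟩

theorem Hyp.dist_P (o x y : X) {t s : ℝ} (ht : 0 ≤ t) (ht' : t ≤ H.d o x) (hs : 0 ≤ s)
    (hs' : s ≤ H.d o y) :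
    dist (H.P o x t ht ht') (H.P o y s hs hs') = t + s - 2 * min (min t s) (H.gp o x y) := by
  obtain ⟨h1, h2⟩ := H.sup_formula o x y ht ht' hs hs'
  exact H.dist_eq_of _ _ h1 h2

theorem Hyp.exists_P (o : X) (f : H.Pt) : ∃ x t h0 h1, f = H.P o x t h0 h1 := by
  obtain ⟨x, h0, h1, h2⟩ := H.root o f
  exact ⟨x, f.1 o, h0, h1, Subtype.ext h2⟩

/-- Ultrametric inequalities give the four point condition. -/
theorem four_of_ultra {q12 q13 q14 q23 q24 q34 : ℝ}
    (h1 : min q13 q23 ≤ q12) (h2 : min q14 q24 ≤ q12)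
    (h3 : min q13 q14 ≤ q34) (h4 : min q23 q24 ≤ q34) :
    min (q13 + q24) (q14 + q23) ≤ q12 + q34 := by
  rcases le_total q13 q23 with a1 | a1 <;> rcases le_total q14 q24 with a2 | a2 <;>
  rcases le_total q13 q14 with a3 | a3 <;> rcases le_total q23 q24 with a4 | a4 <;>
  simp only [a1, a2, a3, a4, min_eq_left, min_eq_right] at h1 h2 h3 h4 <;>
  rcases le_total (q13 + q24) (q14 + q23) with a5 | a5 <;>
  simp only [a5, min_eq_left, min_eq_right] <;> linarith

theorem Hyp.four_point [Nonempty X] (x y z w : H.Pt) :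
    dist x y + dist z w ≤ max (dist x z + dist y w) (dist x w + dist y z) := by
  let o : X := Classical.arbitrary X
  obtain ⟨x1, t1, a1, b1, rfl⟩ := H.exists_P o x
  obtain ⟨x2, t2, a2, b2, rfl⟩ := H.exists_P o y
  obtain ⟨x3, t3, a3, b3, rfl⟩ := H.exists_P o z
  obtain ⟨x4, t4, a4, b4, rfl⟩ := H.exists_P o w
  simp only [H.dist_P]
  have ult : ∀ (x y z : X) (t s r : ℝ), min (min (min t s) (H.gp o x y)) (min (min s r) (H.gp o y z))
      ≤ min (min t r) (H.gp o x z) := by
    intro x y z t s r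
    have := H.ultra o x y z
    refine le_min (le_min ?_ ?_) (le_trans ?_ this)
    · exact le_trans (min_le_left _ _) (le_trans (min_le_left _ _) (min_le_left _ _))
    · exact le_trans (min_le_right _ _) (le_trans (min_le_left _ _) (min_le_right _ _))
    · exact min_le_min (min_le_right _ _) (min_le_right _ _)
  have c : ∀ (x y : X) (t s : ℝ), min (min t s) (H.gp o x y) = min (min s t) (H.gp o y x) := by
    intro x y t s
    rw [min_comm t s, H.gp_comm]
  have u1 := ult x1 x3 x2 t1 t3 t2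
  have u2 := ult x1 x4 x2 t1 t4 t2
  have u3 := ult x3 x1 x4 t3 t1 t4
  have u4 := ult x3 x2 x4 t3 t2 t4
  rw [c x3 x2] at u1
  rw [c x4 x2] at u2
  rw [c x3 x1] at u3
  rw [c x3 x2] at u4
  have := four_of_ultra u1 u2 u3 u4
  rcases le_total (min (min t1 t3) (H.gp o x1 x3) + min (min t2 t4) (H.gp o x2 x4))
    (min (min t1 t4) (H.gp o x1 x4) + min (min t2 t3) (H.gp o x2 x3)) with h | h
  · rw [min_eq_left h] at this
    exact le_max_of_le_left (by linarith)
  · rw [min_eq_right h] at this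
    exact le_max_of_le_right (by linarith)

theorem Hyp.geodesic [Nonempty X] (x y : H.Pt) : ∃ γ : ℝ → H.Pt, γ 0 = x ∧ γ (dist x y) = y ∧
    ∀ s ∈ Set.Icc 0 (dist x y), ∀ t ∈ Set.Icc 0 (dist x y), dist (γ s) (γ t) = |s - t| := by
  let o : X := Classical.arbitrary X
  obtain ⟨x1, t1, a1, b1, rfl⟩ := H.exists_P o x
  obtain ⟨x2, t2, a2, b2, rfl⟩ := H.exists_P o y
  rw [H.dist_P]
  set m := min (min t1 t2) (H.gp o x1 x2) with hm
  have hm0 : 0 ≤ m := le_min (le_min a1 a2) (H.gp_nonneg _ _ _)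
  have hm1 : m ≤ t1 := le_trans (min_le_left _ _) (min_le_left _ _)
  have hm2 : m ≤ t2 := le_trans (min_le_left _ _) (min_le_right _ _)
  have hm3 : m ≤ H.gp o x1 x2 := min_le_right _ _
  -- clamped parameters
  let A : ℝ → ℝ := fun r => max 0 (min t1 (t1 - r))
  let B : ℝ → ℝ := fun r => max 0 (min t2 (r - t1 + 2 * m))
  have hA0 : ∀ r, 0 ≤ A r := fun r => le_max_left _ _
  have hA1 : ∀ r, A r ≤ H.d o x1 := fun r => max_le (H.d_nonneg _ _) (le_trans (min_le_left _ _) b1)
  have hB0 : ∀ r, 0 ≤ B r := fun r => le_max_left _ _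
  have hB1 : ∀ r, B r ≤ H.d o x2 := fun r => max_le (H.d_nonneg _ _) (le_trans (min_le_left _ _) b2)
  have hAr : ∀ r, 0 ≤ r → r ≤ t1 - m → A r = t1 - r := by
    intro r h0 h1
    simp only [A]
    rw [min_eq_right (by linarith), max_eq_right (by linarith)]
  have hBr : ∀ r, t1 - m ≤ r → r ≤ t1 + t2 - 2 * m → B r = r - t1 + 2 * m := by
    intro r h0 h1
    simp only [B]
    rw [min_eq_right (by linarith), max_eq_right (by linarith)]
  have key : ∀ s t, m ≤ s → s ≤ t1 → m ≤ t → t ≤ t2 → min (min s t) (H.gp o x1 x2) = m := by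
    intro s t h1 h2 h3 h4
    apply le_antisymm
    · rw [hm]
      exact min_le_min_right _ (min_le_min h2 h4)
    · exact le_min (le_min h1 h3) hm3
  classical
  let γ : ℝ → H.Pt := fun r => if r ≤ t1 - m then H.P o x1 (A r) (hA0 r) (hA1 r)
    else H.P o x2 (B r) (hB0 r) (hB1 r)
  have d1 : ∀ s t, 0 ≤ s → s ≤ t1 - m → 0 ≤ t → t ≤ t1 - m → dist (γ s) (γ t) = |s - t| := by
    intro s t h1 h2 h3 h4
    simp only [γ, if_pos h2, if_pos h4]
    rw [H.dist_P, hAr s h1 h2, hAr t h3 h4, H.gp_self]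
    rw [min_eq_left (show min (t1 - s) (t1 - t) ≤ H.d o x1 from
      le_trans (min_le_left _ _) (by linarith))]
    rcases le_total s t with h | h
    · rw [min_eq_right (by linarith), abs_sub_comm, abs_of_nonneg (by linarith)]; ring
    · rw [min_eq_left (by linarith), abs_of_nonneg (by linarith)]; ring
  have d2 : ∀ s t, 0 ≤ s → s ≤ t1 - m → t1 - m < t → t ≤ t1 + t2 - 2 * m →
      dist (γ s) (γ t) = t - s := by
    intro s t h1 h2 h3 h4
    simp only [γ, if_pos h2, if_neg (not_le.mpr h3)]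
    rw [H.dist_P, hAr s h1 h2, hBr t h3.le h4, key _ _ (by linarith) (by linarith) (by linarith)
      (by linarith)]
    ring
  have d3 : ∀ s t, t1 - m < s → s ≤ t1 + t2 - 2 * m → t1 - m < t → t ≤ t1 + t2 - 2 * m →
      dist (γ s) (γ t) = |s - t| := by
    intro s t h1 h2 h3 h4
    simp only [γ, if_neg (not_le.mpr h1), if_neg (not_le.mpr h3)]
    rw [H.dist_P, hBr s h1.le h2, hBr t h3.le h4, H.gp_self]
    rw [min_eq_left (show min (s - t1 + 2 * m) (t - t1 + 2 * m) ≤ H.d o x2 from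
      le_trans (min_le_left _ _) (by linarith))]
    rcases le_total s t with h | h
    · rw [min_eq_left (by linarith), abs_sub_comm, abs_of_nonneg (by linarith)]; ring
    · rw [min_eq_right (by linarith), abs_of_nonneg (by linarith)]; ring
  refine ⟨γ, ?_, ?_, ?_⟩
  · simp only [γ]
    rw [if_pos (by linarith)]
    apply Subtype.ext
    show H.pt o x1 (A 0) = H.pt o x1 t1
    rw [hAr 0 le_rfl (by linarith), sub_zero]
  · simp only [γ]
    split_ifs with h
    · -- then t2 = m
      have h2 : t2 = m := by linarith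
      apply dist_eq_zero.mp
      rw [H.dist_P, hAr _ (by linarith) h, key _ _ (by linarith) (by linarith) (by linarith) le_rfl]
      linarith
    · apply Subtype.ext
      show H.pt o x2 (B _) = H.pt o x2 t2
      rw [hBr _ (by linarith) le_rfl]
      congr 1
      ring
  · intro s hs t ht
    rcases le_or_gt s (t1 - m) with h1 | h1 <;> rcases le_or_gt t (t1 - m) with h2 | h2
    · exact d1 s t hs.1 h1 ht.1 h2
    · rw [d2 s t hs.1 h1 h2 ht.2, abs_sub_comm, abs_of_nonneg (by linarith)]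
    · rw [dist_comm, d2 t s ht.1 h2 h1 hs.2, abs_of_nonneg (by linarith)]
    · exact d3 s t h1 hs.2 h2 ht.2

/-- The vertex given by a point of `X`. -/
noncomputable def Hyp.v (x : X) : H.Pt := H.P x x 0 le_rfl (H.self x).ge

theorem Hyp.v_apply (x z : X) : (H.v x).1 z = H.d x z := by
  show H.pt x x 0 z = _
  unfold Hyp.pt
  rw [min_eq_left (H.gp_nonneg _ _ _)]
  ring

theorem Hyp.v_eq (o x : X) : H.v x = H.P o x (H.d o x) (H.d_nonneg _ _) le_rfl := by
  apply Subtype.ext
  show H.pt x x 0 = H.pt o x (H.d o x)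
  rw [H.pt_swap o x, sub_self, H.pt_change x o x (H.gp_nonneg _ _ _)]

theorem Hyp.v_eq' (o x : X) : H.v o = H.P o x 0 le_rfl (H.d_nonneg _ _) := by
  apply Subtype.ext
  show H.pt o o 0 = H.pt o x 0
  rw [H.pt_change o o x (H.gp_nonneg _ _ _)]

theorem Hyp.dist_v (x y : X) : dist (H.v x) (H.v y) = H.d x y := by
  rw [H.v_eq x y, H.v_eq' x y, H.dist_P]
  rw [min_eq_left (H.d_nonneg x y), H.gp_self, min_eq_left (H.d_nonneg x y)]
  ring

/-- Every point lies on a segment between two vertices. -/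
theorem Hyp.mem_segment (f : H.Pt) : ∃ a b, dist (H.v a) f + dist f (H.v b) =
    dist (H.v a) (H.v b) := by
  obtain ⟨f, a, b, t, h0, h1, rfl⟩ := f
  refine ⟨a, b, ?_⟩
  have e1 : (⟨H.pt a b t, a, b, t, h0, h1, rfl⟩ : H.Pt) = H.P a b t h0 h1 := rfl
  rw [e1, H.dist_v]
  rw [H.v_eq' a b, H.dist_P]
  rw [H.v_eq a b, H.dist_P, H.gp_self]
  rw [min_eq_left h0, min_eq_left (H.d_nonneg a b), min_eq_left h1, min_eq_left h1]
  ring

/-- Action of a group of isometries. -/
theorem Hyp.pt_smul (σ : X ≃ X) (hσ : ∀ x y, H.d (σ x) (σ y) = H.d x y) (a b : X) (t : ℝ) :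
    (fun z => H.pt a b t (σ.symm z)) = H.pt (σ a) (σ b) t := by
  have h2 : ∀ x y, H.d x (σ.symm y) = H.d (σ x) y := by
    intro x y
    rw [← hσ x (σ.symm y), σ.apply_symm_apply]
  funext z
  unfold Hyp.pt Hyp.gp
  rw [h2 a z, h2 b z, hσ]

end Pool.Agent.H472R3.Hull
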