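import Mathlib
import Pool.Agent.H472R3.Defs
import Pool.Agent.H472R3.Hull

set_option autoImplicit false

namespace Pool.Agent.H472R3

open FTree

variable {N : ℕ}

/-- Distance from the midpoint. -/
theorem IsRTree.exists_mid {T : Type} [MetricSpace T] (h : IsRTree T) (x y : T) :
    ∃ m : T, ∀ z, dist m z = max (dist x z) (dist y z) - dist x y / 2 := by
  obtain ⟨γ, h0, h1, h2⟩ := h.geodesic x y
  have hd : 0 ≤ dist x y := dist_nonneg
  refine ⟨γ (dist x y / 2), fun z => ?_⟩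
  have a1 : dist (γ (dist x y / 2)) x = dist x y / 2 := by
    have := h2 (dist x y / 2) ⟨by linarith, by linarith⟩ 0 ⟨le_rfl, hd⟩
    rw [h0, sub_zero, abs_of_nonneg (by linarith)] at this
    exact this
  have a2 : dist (γ (dist x y / 2)) y = dist x y / 2 := by
    have := h2 (dist x y / 2) ⟨by linarith, by linarith⟩ (dist x y) ⟨hd, le_rfl⟩
    rw [h1, abs_sub_comm, abs_of_nonneg (by linarith)] at this
    rw [this]; ring
  set m := γ (dist x y / 2)
  apply le_antisymm
  · have := h.zeroHyperbolic m z x y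
    rw [a1, a2, dist_comm z y, dist_comm z x] at this
    rcases le_total (dist x z) (dist y z) with h' | h'
    · rw [max_eq_right h']
      rw [max_eq_left (by linarith)] at this
      linarith
    · rw [max_eq_left h']
      rw [max_eq_right (by linarith)] at this
      linarith
  · have b1 := dist_triangle x m z
    have b2 := dist_triangle y m z
    rw [dist_comm x m, a1] at b1
    rw [dist_comm y m, a2] at b2
    have := max_le b1 b2
    linarith

theorem FTree.len_eq (A : FTree N) (g : FreeGroup (Fin N)) (x : A.T) :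
    A.len g = max 0 (dist x (g • g • x) - dist x (g • x)) := by
  have hiso := A.isometric g
  have : Nonempty A.T := A.isRTree.nonempty
  have lower : ∀ y : A.T, dist x (g • g • x) - dist x (g • x) ≤ dist y (g • y) := by
    intro y
    have h1 := A.isRTree.zeroHyperbolic x (g • g • x) (g • x) (g • y)
    have e1 : dist (g • x) (g • y) = dist x y := hiso _ _
    have e2 : dist (g • g • x) (g • y) = dist (g • x) y := hiso _ _
    have e3 : dist (g • g • x) (g • x) = dist x (g • x) := by rw [hiso, dist_comm]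
    rw [e1, e2, e3] at h1
    have t1 := dist_triangle x y (g • y)
    have t2 := dist_triangle (g • x) (g • y) y
    rw [e1, dist_comm (g • y) y] at t2
    rcases max_cases (dist x (g • x) + dist (g • x) y) (dist x (g • y) + dist x (g • x)) with h | h
    · rw [h.1] at h1; linarith
    · rw [h.1] at h1; linarith
  obtain ⟨m, hm⟩ := A.isRTree.exists_mid x (g • x)
  have hmm : dist m (g • m) = max 0 (dist x (g • g • x) - dist x (g • x)) := by
    have e1 : dist (g • x) (g • m) = dist x (g • x) / 2 := by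
      rw [hiso, dist_comm x m, hm x, dist_self, dist_comm (g • x) x, max_eq_right dist_nonneg]
      ring
    have e2 : dist x (g • m) = max (dist x (g • x)) (dist x (g • g • x)) - dist x (g • x) / 2 := by
      have h1 : dist m (g⁻¹ • x) = max (dist x (g⁻¹ • x)) (dist (g • x) (g⁻¹ • x)) -
        dist x (g • x) / 2 := hm _
      have h2 : dist m (g⁻¹ • x) = dist x (g • m) := by
        rw [← hiso m, smul_inv_smul, dist_comm]
      have h3 : dist x (g⁻¹ • x) = dist x (g • x) := by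
        rw [← hiso x, smul_inv_smul, dist_comm]
      have h4 : dist (g • x) (g⁻¹ • x) = dist x (g • g • x) := by
        rw [← hiso (g • x), smul_inv_smul, dist_comm]
      rw [← h2, h1, h3, h4]
    rw [hm (g • m), e1, e2]
    have hnn : 0 ≤ dist x (g • x) := dist_nonneg
    rcases le_total (dist x (g • x)) (dist x (g • g • x)) with h | h
    · rw [max_eq_right h, max_eq_left (by linarith), max_eq_right (by linarith)]
      ring
    · rw [max_eq_left h, max_eq_left (by linarith), max_eq_left (by linarith)]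
      ring
  unfold FTree.len
  apply le_antisymm
  · rw [← hmm]
    refine ciInf_le ⟨0, ?_⟩ m
    rintro _ ⟨y, rfl⟩
    exact dist_nonneg
  · apply le_ciInf
    intro y
    exact max_le dist_nonneg (lower y)

theorem FTree.le_dist (A : FTree N) (g : FreeGroup (Fin N)) (x : A.T) :
    A.len g ≤ dist x (g • x) := by
  unfold FTree.len
  refine ciInf_le ⟨0, ?_⟩ x
  rintro _ ⟨y, rfl⟩
  exact dist_nonneg

theorem FTree.Same.len_eq {A B : FTree N} (h : A.Same B) : A.len = B.len := by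
  obtain ⟨f, hf⟩ := h
  funext g
  obtain ⟨x⟩ := A.isRTree.nonempty
  rw [A.len_eq g x, B.len_eq g (f x), ← hf, ← hf, f.dist_eq, f.dist_eq]

/-- A length function on the free group satisfying Lyndon's axioms. -/
structure LenFn (N : ℕ) where
  L : FreeGroup (Fin N) → ℝ
  one : L 1 = 0
  inv : ∀ g, L g⁻¹ = L g
  um : ∀ g h k, min ((L g + L h - L (g⁻¹ * h)) / 2) ((L h + L k - L (h⁻¹ * k)) / 2) ≤
    (L g + L k - L (g⁻¹ * k)) / 2

namespace LenFn

variable (ℓ : LenFn N)

def hyp : Hull.Hyp (FreeGroup (Fin N)) where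
  d x y := ℓ.L (x⁻¹ * y)
  self x := by rw [inv_mul_cancel, ℓ.one]
  symm x y := by rw [← ℓ.inv]; congr 1; group
  um a x y z := by
    have := ℓ.um (a⁻¹ * x) (a⁻¹ * y) (a⁻¹ * z)
    have e : ∀ x y : FreeGroup (Fin N), (a⁻¹ * x)⁻¹ * (a⁻¹ * y) = x⁻¹ * y := by
      intro x y; group
    rwa [e, e, e] at this

theorem hyp_d (x y : FreeGroup (Fin N)) : ℓ.hyp.d x y = ℓ.L (x⁻¹ * y) := rfl

noncomputable instance : MulAction (FreeGroup (Fin N)) ℓ.hyp.Pt where
  smul g f := ⟨fun z => f.1 (g⁻¹ * z), by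
    obtain ⟨f, a, b, t, h0, h1, rfl⟩ := f
    refine ⟨g * a, g * b, t, h0, ?_, ?_⟩
    · rw [hyp_d] at h1 ⊢
      have e : (g * a)⁻¹ * (g * b) = a⁻¹ * b := by group
      rw [e]; exact h1
    · have := ℓ.hyp.pt_smul (Equiv.mulLeft g) (fun x y => by
        rw [hyp_d, hyp_d]; congr 1
        simp only [Equiv.coe_mulLeft]; group) a b t
      exact this⟩
  one_smul f := by
    apply Subtype.ext
    funext z
    show f.1 (1⁻¹ * z) = f.1 z
    rw [inv_one, one_mul]
  mul_smul g h f := by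
    apply Subtype.ext
    funext z
    show f.1 ((g * h)⁻¹ * z) = f.1 (h⁻¹ * (g⁻¹ * z))
    rw [mul_inv_rev, mul_assoc]

theorem smul_apply (g : FreeGroup (Fin N)) (f : ℓ.hyp.Pt) (z : FreeGroup (Fin N)) :
    (g • f).1 z = f.1 (g⁻¹ * z) := rfl

theorem smul_v (g x : FreeGroup (Fin N)) : g • ℓ.hyp.v x = ℓ.hyp.v (g * x) := by
  apply Subtype.ext
  funext z
  rw [smul_apply, ℓ.hyp.v_apply, ℓ.hyp.v_apply, hyp_d, hyp_d]
  congr 1
  group

/-- The tree with an action of the free group given by a length function. -/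
noncomputable def tree : FTree N where
  T := ℓ.hyp.Pt
  metric := inferInstance
  action := inferInstance
  isometric g f h := by
    show (⨆ z, |f.1 (g⁻¹ * z) - h.1 (g⁻¹ * z)|) = ⨆ z, |f.1 z - h.1 z|
    exact (Equiv.mulLeft g⁻¹).iSup_comp (g := fun z => |f.1 z - h.1 z|)
  isRTree :=
    { nonempty := ⟨ℓ.hyp.v 1⟩
      geodesic := ℓ.hyp.geodesic
      zeroHyperbolic := ℓ.hyp.four_point }

/-- The base point. -/
noncomputable def base : ℓ.tree.T := ℓ.hyp.v 1

theorem smul_base (g : FreeGroup (Fin N)) : g • ℓ.base = (ℓ.hyp.v g : ℓ.hyp.Pt) := by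
  have := ℓ.smul_v g 1
  rw [mul_one] at this
  exact this

theorem dist_base (g h : FreeGroup (Fin N)) : dist (g • ℓ.base) (h • ℓ.base) = ℓ.L (g⁻¹ * h) := by
  rw [smul_base, smul_base]
  exact ℓ.hyp.dist_v g h

theorem dist_base' (h : FreeGroup (Fin N)) : dist ℓ.base (h • ℓ.base) = ℓ.L h := by
  have := ℓ.dist_base 1 h
  rwa [one_smul, inv_one, one_mul] at this

theorem len_tree (g : FreeGroup (Fin N)) : ℓ.tree.len g = max 0 (ℓ.L (g * g) - ℓ.L g) := by
  rw [FTree.len_eq _ g ℓ.base, ← mul_smul, dist_base', dist_base']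

theorem span (f : ℓ.tree.T) : ∃ a b : FreeGroup (Fin N),
    dist (a • ℓ.base) f + dist f (b • ℓ.base) = dist (a • ℓ.base) (b • ℓ.base) := by
  obtain ⟨a, b, h⟩ := ℓ.hyp.mem_segment f
  refine ⟨a, b, ?_⟩
  rw [smul_base, smul_base]
  exact h

theorem free_tree (h : ∀ g, g ≠ 1 → ℓ.L g < ℓ.L (g * g)) : ℓ.tree.Free := by
  intro g x hx
  by_contra hg
  have h1 := ℓ.tree.le_dist g x
  rw [hx, dist_self, len_tree] at h1
  have := h g hg
  have h2 := le_max_right 0 (ℓ.L (g * g) - ℓ.L g)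
  linarith

theorem discrete_tree {ε : ℝ} (hε : 0 < ε) (h : ∀ g, g ≠ 1 → ε ≤ ℓ.L (g * g) - ℓ.L g) :
    ℓ.tree.DiscreteOrbits := by
  intro x
  refine ⟨ε, hε, fun g hg => ?_⟩
  have hg1 : g ≠ 1 := by
    rintro rfl
    exact hg (one_smul _ _)
  have h1 := ℓ.tree.le_dist g x
  rw [len_tree] at h1
  have := h g hg1
  have h2 := le_max_right 0 (ℓ.L (g * g) - ℓ.L g)
  linarith

theorem minimal_tree (h : FreeGroup (Fin N)) (hpos : 0 < ℓ.L h)
    (hpow : ∀ n : ℕ, ℓ.L (h ^ n) = n * ℓ.L h) : ℓ.tree.Minimal := by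
  intro Y hne hconv hinv
  obtain ⟨y, hy⟩ := hne
  have hiso := ℓ.tree.isometric
  set o := ℓ.base
  -- gromov products at o
  obtain ⟨n, hn⟩ := exists_nat_gt (dist o y / ℓ.L h)
  have hn' : dist o y < n * ℓ.L h := by
    rwa [div_lt_iff₀ hpos] at hn
  have e1 : dist o (h ^ n • o) = n * ℓ.L h := by rw [ℓ.dist_base', hpow]
  have e2 : dist o ((h ^ n)⁻¹ • o) = n * ℓ.L h := by rw [ℓ.dist_base', ℓ.inv, hpow]
  have e3 : dist ((h ^ n)⁻¹ • o) (h ^ n • o) = 2 * (n * ℓ.L h) := by
    rw [ℓ.dist_base, inv_inv, ← pow_add, hpow]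
    push_cast; ring
  have e4 : dist (h ^ n • o) (h ^ n • y) = dist o y := hiso _ _ _
  have e5 : dist ((h ^ n)⁻¹ • o) ((h ^ n)⁻¹ • y) = dist o y := hiso _ _ _
  have ho : o ∈ Y := by
    apply hconv ((h ^ n)⁻¹ • y) (hinv _ y hy) (h ^ n • y) (hinv _ y hy)
    have q1 := ℓ.tree.isRTree.zeroHyperbolic ((h ^ n)⁻¹ • o) (h ^ n • y) o (h ^ n • o)
    have q2 := ℓ.tree.isRTree.zeroHyperbolic ((h ^ n)⁻¹ • o) (h ^ n • y) o ((h ^ n)⁻¹ • y)
    have q3 := ℓ.tree.isRTree.zeroHyperbolic ((h ^ n)⁻¹ • o) (h ^ n • o) o (h ^ n • y)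
    have t0 := dist_triangle ((h ^ n)⁻¹ • y) o (h ^ n • y)
    have t1 := dist_triangle o (h ^ n • o) (h ^ n • y)
    have t2 := dist_triangle o (h ^ n • y) (h ^ n • o)
    have t3 := dist_triangle o ((h ^ n)⁻¹ • y) ((h ^ n)⁻¹ • o)
    have t4 := dist_triangle ((h ^ n)⁻¹ • o) o (h ^ n • y)
    rw [dist_comm (h ^ n • y) (h ^ n • o)] at t2
    rw [dist_comm ((h ^ n)⁻¹ • y) ((h ^ n)⁻¹ • o)] at t3
    rw [dist_comm ((h ^ n)⁻¹ • o) o] at t4
    rw [dist_comm ((h ^ n)⁻¹ • o) o, dist_comm (h ^ n • y) (h ^ n • o),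
      dist_comm (h ^ n • y) o] at q1
    rw [dist_comm ((h ^ n)⁻¹ • o) o, dist_comm (h ^ n • y) ((h ^ n)⁻¹ • y),
      dist_comm (h ^ n • y) o] at q2
    rw [dist_comm ((h ^ n)⁻¹ • o) o, dist_comm (h ^ n • o) o] at q3
    rw [e1, e2, e4, e3] at q1
    rw [e2, e5] at q2
    rw [e1, e2, e3, e4] at q3
    rw [e1, e4] at t1 t2
    rw [e2, e5] at t3
    rw [e2] at t4
    apply le_antisymm ?_ t0
    -- first: d(h^{-n} o, h^n y) = d(o, h^{-n}o) + d(o, h^n y)
    have f1 : dist ((h ^ n)⁻¹ • o) (h ^ n • y) = n * ℓ.L h + dist o (h ^ n • y) := by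
      apply le_antisymm t4
      rcases max_cases (n * ℓ.L h + dist o y)
        (dist ((h ^ n)⁻¹ • o) (h ^ n • y) + n * ℓ.L h) with hm | hm
      · rw [hm.1] at q3; nlinarith
      · rw [hm.1] at q3; linarith
    rw [f1] at q2
    rw [dist_comm ((h ^ n)⁻¹ • y) o]
    rcases max_cases (n * ℓ.L h + dist ((h ^ n)⁻¹ • y) (h ^ n • y))
      (dist o y + dist o (h ^ n • y)) with hm | hm
    · rw [hm.1] at q2; linarith
    · rw [hm.1] at q2; linarith
  have hall : ∀ g : FreeGroup (Fin N), g • o ∈ Y := fun g => hinv g o ho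
  ext f
  simp only [Set.mem_univ, iff_true]
  obtain ⟨a, b, hab⟩ := ℓ.span f
  exact hconv _ (hall a) _ (hall b) f hab

end LenFn

theorem FTree.Free.verySmall {A : FTree N} (h : A.Free) : A.VerySmall := by
  refine ⟨fun x y _ => Or.inl ?_, fun x y z _ _ _ g hg _ _ => h g x hg⟩
  rw [eq_bot_iff]
  rintro g ⟨hg, _⟩
  rw [Subgroup.mem_bot]
  exact h g x hg

theorem FTree.Free.nontriv {A : FTree N} (h : A.Free) (hN : 0 < N) : A.Nontriv := by
  intro x
  refine ⟨FreeGroup.of ⟨0, hN⟩, fun hx => ?_⟩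
  have := h _ x hx
  exact FreeGroup.of_ne_one _ this

end Pool.Agent.H472R3
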