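import Mathlib
import Pool.Agent.H472R3.TreeLen

set_option autoImplicit false

namespace Pool.Agent.H472R3

variable {N : ℕ}

/-- Weight of a word. -/
def W (w : Fin N → ℝ) (l : List (Fin N × Bool)) : ℝ := (l.map (fun x => w x.1)).sum

theorem W_nil (w : Fin N → ℝ) : W w [] = 0 := rfl

theorem W_cons (w : Fin N → ℝ) (x : Fin N × Bool) (l : List (Fin N × Bool)) :
    W w (x :: l) = w x.1 + W w l := by
  simp [W]

theorem W_append (w : Fin N → ℝ) (l l' : List (Fin N × Bool)) :
    W w (l ++ l') = W w l + W w l' := by
  simp [W]

theorem W_invRev (w : Fin N → ℝ) (l : List (Fin N × Bool)) :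
    W w (FreeGroup.invRev l) = W w l := by
  unfold W FreeGroup.invRev
  rw [List.map_reverse, List.sum_reverse, List.map_map]
  rfl

theorem W_nonneg {w : Fin N → ℝ} (hw : ∀ i, 0 ≤ w i) (l : List (Fin N × Bool)) : 0 ≤ W w l := by
  unfold W
  apply List.sum_nonneg
  intro x hx
  rw [List.mem_map] at hx
  obtain ⟨y, _, rfl⟩ := hx
  exact hw _

/-- Weighted word length. -/
def wl (w : Fin N → ℝ) (g : FreeGroup (Fin N)) : ℝ := W w g.toWord

/-- Weight of the longest common prefix. -/
def cp (w : Fin N → ℝ) : List (Fin N × Bool) → List (Fin N × Bool) → ℝ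
  | x :: xs, y :: ys => if x = y then w x.1 + cp w xs ys else 0
  | [], _ => 0
  | _ :: _, [] => 0

theorem cp_nonneg {w : Fin N → ℝ} (hw : ∀ i, 0 ≤ w i) (u v : List (Fin N × Bool)) :
    0 ≤ cp w u v := by
  induction u generalizing v with
  | nil => simp [cp]
  | cons x xs ih =>
    cases v with
    | nil => simp [cp]
    | cons y ys =>
      unfold cp
      split_ifs
      · have := ih ys; have := hw x.1; linarith
      · exact le_rfl

theorem cp_um {w : Fin N → ℝ} (hw : ∀ i, 0 ≤ w i) (x y z : List (Fin N × Bool)) :
    min (cp w x y) (cp w y z) ≤ cp w x z := by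
  induction x generalizing y z with
  | nil =>
    have : cp w [] y = 0 := by simp [cp]
    rw [this]
    exact le_trans (min_le_left _ _) (cp_nonneg hw _ _)
  | cons a x ih =>
    cases y with
    | nil =>
      have : cp w (a :: x) [] = 0 := by simp [cp]
      rw [this]
      exact le_trans (min_le_left _ _) (cp_nonneg hw _ _)
    | cons b y =>
      cases z with
      | nil =>
        have : cp w (b :: y) [] = 0 := by simp [cp]
        rw [this]
        exact le_trans (min_le_right _ _) (cp_nonneg hw _ _)
      | cons c z =>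
        by_cases hab : a = b
        · by_cases hbc : b = c
          · subst hab; subst hbc
            simp only [cp, if_true]
            have := ih y z
            rw [min_add_add_left]
            linarith
          · have : cp w (b :: y) (c :: z) = 0 := by simp [cp, hbc]
            rw [this]
            exact le_trans (min_le_right _ _) (cp_nonneg hw _ _)
        · have : cp w (a :: x) (b :: y) = 0 := by simp [cp, hab]
          rw [this]
          exact le_trans (min_le_left _ _) (cp_nonneg hw _ _)

theorem wl_mk {w : Fin N → ℝ} {l : List (Fin N × Bool)} (h : FreeGroup.IsReduced l) :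
    wl w (FreeGroup.mk l) = W w l := by
  unfold wl
  rw [FreeGroup.toWord_mk, h.reduce_eq]

theorem isReduced_invRev {l : List (Fin N × Bool)} (h : FreeGroup.IsReduced l) :
    FreeGroup.IsReduced (FreeGroup.invRev l) := by
  rw [FreeGroup.isReduced_iff_reduce_eq] at h ⊢
  rw [FreeGroup.reduce_invRev, h]

/-- junction of an inverse word and a word with different heads -/
theorem isReduced_junction {u v : List (Fin N × Bool)} (hu : FreeGroup.IsReduced u)
    (hv : FreeGroup.IsReduced v) (h : ∀ x ∈ u.head?, ∀ y ∈ v.head?, x ≠ y) :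
    FreeGroup.IsReduced (FreeGroup.invRev u ++ v) := by
  have h1 := isReduced_invRev hu
  unfold FreeGroup.IsReduced at *
  rw [List.isChain_append]
  refine ⟨h1, hv, ?_⟩
  intro x hx y hy
  cases u with
  | nil => simp [FreeGroup.invRev] at hx
  | cons a u =>
    have hx' : x = (a.1, !a.2) := by
      simp [FreeGroup.invRev] at hx
      exact hx.symm
    subst hx'
    intro h2
    have h3 := h a (by simp) y hy
    simp only at h2 ⊢
    by_contra h4
    apply h3
    refine Prod.ext h2 ?_
    revert h4
    cases a.2 <;> cases y.2 <;> simp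

theorem wl_inv_mul {w : Fin N → ℝ} (u v : List (Fin N × Bool)) (hu : FreeGroup.IsReduced u)
    (hv : FreeGroup.IsReduced v) :
    wl w ((FreeGroup.mk u)⁻¹ * FreeGroup.mk v) = W w u + W w v - 2 * cp w u v := by
  induction u generalizing v with
  | nil =>
    have e : (FreeGroup.mk ([] : List (Fin N × Bool)))⁻¹ * FreeGroup.mk v = FreeGroup.mk v := by
      rw [FreeGroup.inv_mk, FreeGroup.mul_mk]; rfl
    rw [e, wl_mk hv, W_nil]
    simp [cp]
  | cons x u ih =>
    cases v with
    | nil =>
      have e : (FreeGroup.mk (x :: u))⁻¹ * FreeGroup.mk ([] : List (Fin N × Bool)) =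
          FreeGroup.mk (FreeGroup.invRev (x :: u)) := by
        rw [FreeGroup.inv_mk, FreeGroup.mul_mk, List.append_nil]
      rw [e, wl_mk (isReduced_invRev hu), W_invRev, W_nil]
      simp [cp]
    | cons y v =>
      by_cases hxy : x = y
      · subst hxy
        have hu' : FreeGroup.IsReduced u := List.IsChain.tail hu
        have hv' : FreeGroup.IsReduced v := List.IsChain.tail hv
        have e : (FreeGroup.mk (x :: u))⁻¹ * FreeGroup.mk (x :: v) =
            (FreeGroup.mk u)⁻¹ * FreeGroup.mk v := by
          have e1 : ∀ l : List (Fin N × Bool), FreeGroup.mk (x :: l) =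
              FreeGroup.mk [x] * FreeGroup.mk l := by
            intro l; rw [FreeGroup.mul_mk]; rfl
          rw [e1 u, e1 v]; group
        rw [e, ih v hu' hv', W_cons, W_cons]
        simp only [cp, if_true]
        ring
      · rw [FreeGroup.inv_mk, FreeGroup.mul_mk]
        rw [wl_mk (isReduced_junction hu hv (by
          intro a ha b hb
          simp at ha hb
          subst ha; subst hb
          exact hxy))]
        rw [W_append, W_invRev]
        simp [cp, hxy]

theorem wl_inv {w : Fin N → ℝ} (g : FreeGroup (Fin N)) : wl w g⁻¹ = wl w g := by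
  unfold wl
  rw [FreeGroup.toWord_inv, W_invRev]

/-- Gromov product of weighted word length. -/
theorem wl_gp {w : Fin N → ℝ} (g h : FreeGroup (Fin N)) :
    (wl w g + wl w h - wl w (g⁻¹ * h)) / 2 = cp w g.toWord h.toWord := by
  have := wl_inv_mul (w := w) g.toWord h.toWord FreeGroup.isReduced_toWord
    FreeGroup.isReduced_toWord
  rw [FreeGroup.mk_toWord, FreeGroup.mk_toWord] at this
  rw [this]
  unfold wl
  ring

/-- The length function given by weights and an endomorphism. -/
def LenFn.ofHom {w : Fin N → ℝ} (hw : ∀ i, 0 ≤ w i)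
    (φ : FreeGroup (Fin N) →* FreeGroup (Fin N)) : LenFn N where
  L g := wl w (φ g)
  one := by rw [map_one]; simp [wl, W]
  inv g := by rw [map_inv, wl_inv]
  um g h k := by
    simp only [map_mul, map_inv]
    rw [wl_gp, wl_gp, wl_gp]
    exact cp_um hw _ _ _

theorem wl_sq {w : Fin N → ℝ} {ε : ℝ} (hε : 0 ≤ ε) (hw : ∀ i, ε ≤ w i) (g : FreeGroup (Fin N))
    (hg : g ≠ 1) : ε ≤ wl w (g * g) - wl w g := by
  have h := FreeGroup.isReduced_toWord (x := g)
  have h2 := FreeGroup.reduceCyclically.reduce_flatten_replicate h 2
  rw [if_neg (by norm_num)] at h2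
  have e1 : (List.replicate 2 g.toWord).flatten = g.toWord ++ g.toWord := by
    simp [List.replicate_succ]
  have e2 : (List.replicate 2 (FreeGroup.reduceCyclically g.toWord)).flatten =
      FreeGroup.reduceCyclically g.toWord ++ FreeGroup.reduceCyclically g.toWord := by
    simp [List.replicate_succ]
  rw [e1, e2, ← FreeGroup.toWord_mul] at h2
  have h3 := FreeGroup.reduceCyclically.conj_conjugator_reduceCyclically g.toWord
  have h4 : wl w (g * g) - wl w g = W w (FreeGroup.reduceCyclically g.toWord) := by
    unfold wl
    rw [h2]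
    conv_lhs => rw [← h3]
    rw [FreeGroup.toWord_mul] at *
    simp only [W_append, W_invRev]
    rw [h3]
    ring
  rw [h4]
  cases hr : FreeGroup.reduceCyclically g.toWord with
  | nil =>
    exfalso
    apply hg
    rw [hr] at h3
    rw [← FreeGroup.mk_toWord (x := g), ← h3]
    rw [List.append_nil, ← FreeGroup.mul_mk, ← FreeGroup.inv_mk, mul_inv_cancel]
  | cons x l =>
    rw [W_cons]
    have h5 := hw x.1
    have h6 := W_nonneg (fun i => le_trans hε (hw i)) l
    linarith

end Pool.Agent.H472R3
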