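import Mathlib
import Pool.Agent.H472R3.Words

set_option autoImplicit false

namespace Pool.Agent.H472R3

set_option linter.unusedSimpArgs false

variable {M : ℕ}

/-- The three special generators. -/
def c0 : Fin (M + 3) := ⟨0, by omega⟩
def c1 : Fin (M + 3) := ⟨1, by omega⟩
def c2 : Fin (M + 3) := ⟨2, by omega⟩

theorem c01 : (c0 : Fin (M + 3)) ≠ c1 := by simp [c0, c1]
theorem c02 : (c0 : Fin (M + 3)) ≠ c2 := by simp [c0, c2]
theorem c12 : (c1 : Fin (M + 3)) ≠ c2 := by simp [c1, c2]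

abbrev Let (M : ℕ) := Fin (M + 3) × Bool

/-- Images of letters: `a ↦ c a⁻¹`, `b ↦ a`, `c ↦ b`. -/
def S (x : Let M) : List (Let M) :=
  if x.1 = c0 then (if x.2 then [(c2, true), (c0, false)] else [(c0, true), (c2, false)])
  else if x.1 = c1 then [(c0, x.2)]
  else if x.1 = c2 then [(c1, x.2)]
  else [x]

/-- Forbidden turns. -/
def Bad (x y : Let M) : Prop :=
  (x = (c0, true) ∧ y = (c1, true)) ∨ (x = (c1, true) ∧ y = (c2, true)) ∨
  (x = (c2, true) ∧ y = (c0, true)) ∨ (x = (c1, false) ∧ y = (c0, false)) ∨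
  (x = (c2, false) ∧ y = (c1, false)) ∨ (x = (c0, false) ∧ y = (c2, false))

/-- Allowed adjacency. -/
def R (x y : Let M) : Prop := (x.1 = y.1 → x.2 = y.2) ∧ ¬ Bad x y

theorem S_c0t : S ((c0, true) : Let M) = [(c2, true), (c0, false)] := by simp [S]
theorem S_c0f : S ((c0, false) : Let M) = [(c0, true), (c2, false)] := by simp [S]
theorem S_c1 (b : Bool) : S ((c1, b) : Let M) = [(c0, b)] := by simp [S, c01.symm]
theorem S_c2 (b : Bool) : S ((c2, b) : Let M) = [(c1, b)] := by simp [S, c02.symm, c12.symm]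
theorem S_other {i : Fin (M + 3)} (h0 : i ≠ c0) (h1 : i ≠ c1) (h2 : i ≠ c2) (b : Bool) :
    S ((i, b) : Let M) = [(i, b)] := by simp [S, h0, h1, h2]

theorem letter_cases (i : Fin (M + 3)) : i = c0 ∨ i = c1 ∨ i = c2 ∨ (i ≠ c0 ∧ i ≠ c1 ∧ i ≠ c2) := by
  by_cases h0 : i = c0
  · exact Or.inl h0
  by_cases h1 : i = c1
  · exact Or.inr (Or.inl h1)
  by_cases h2 : i = c2
  · exact Or.inr (Or.inr (Or.inl h2))
  exact Or.inr (Or.inr (Or.inr ⟨h0, h1, h2⟩))

theorem S_chain (x : Let M) : List.IsChain R (S x) := by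
  obtain ⟨i, b⟩ := x
  rcases letter_cases i with rfl | rfl | rfl | ⟨h0, h1, h2⟩
  · cases b
    · rw [S_c0f]
      simp [R, Bad, c02, c02.symm, c01, c01.symm, c12, c12.symm]
    · rw [S_c0t]
      simp [R, Bad, c02, c02.symm, c01, c01.symm, c12, c12.symm]
  · rw [S_c1]; simp
  · rw [S_c2]; simp
  · rw [S_other h0 h1 h2]; simp

theorem S_ne_nil (x : Let M) : S x ≠ [] := by
  obtain ⟨i, b⟩ := x
  rcases letter_cases i with rfl | rfl | rfl | ⟨h0, h1, h2⟩
  · cases b
    · rw [S_c0f]; simp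
    · rw [S_c0t]; simp
  · rw [S_c1]; simp
  · rw [S_c2]; simp
  · rw [S_other h0 h1 h2]; simp

theorem S_junction (x y : Let M) (h : R x y) :
    ∀ p ∈ (S x).getLast?, ∀ q ∈ (S y).head?, R p q := by
  obtain ⟨i, b⟩ := x
  obtain ⟨j, c⟩ := y
  rcases letter_cases i with rfl | rfl | rfl | ⟨h0, h1, h2⟩ <;>
  rcases letter_cases j with rfl | rfl | rfl | ⟨k0, k1, k2⟩ <;>
  cases b <;> cases c <;>
  simp_all [R, Bad, S_c0t, S_c0f, S_c1, S_c2, S_other, c02, c02.symm, c01, c01.symm, c12, c12.symm,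
    Ne.symm]

/-- Image of a word, not reduced. -/
def Sw (l : List (Let M)) : List (Let M) := (l.map S).flatten

theorem Sw_nil : Sw ([] : List (Let M)) = [] := rfl
theorem Sw_cons (x : Let M) (l : List (Let M)) : Sw (x :: l) = S x ++ Sw l := by simp [Sw]
theorem Sw_append (l l' : List (Let M)) : Sw (l ++ l') = Sw l ++ Sw l' := by simp [Sw]

theorem Sw_chain {l : List (Let M)} (h : List.IsChain R l) : List.IsChain R (Sw l) := by
  unfold Sw
  rw [List.isChain_flatten]
  · refine ⟨?_, ?_⟩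
    · intro l' hl'
      rw [List.mem_map] at hl'
      obtain ⟨x, _, rfl⟩ := hl'
      exact S_chain x
    · rw [List.isChain_map]
      exact h.imp (fun x y hxy => S_junction x y hxy)
  · intro hc
    rw [List.mem_map] at hc
    obtain ⟨x, _, hx⟩ := hc
    exact S_ne_nil x hx

/-- The automorphism. -/
def psi : FreeGroup (Fin (M + 3)) →* FreeGroup (Fin (M + 3)) :=
  FreeGroup.lift (fun i => FreeGroup.mk (S ((i, true) : Let M)))

theorem psi_letter (x : Let M) : psi (FreeGroup.mk [x]) = FreeGroup.mk (S x) := by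
  obtain ⟨i, b⟩ := x
  have h1 : psi (FreeGroup.mk [(i, true)]) = FreeGroup.mk (S ((i, true) : Let M)) := by
    have : (FreeGroup.mk [(i, true)] : FreeGroup (Fin (M + 3))) = FreeGroup.of i := rfl
    rw [this]
    unfold psi
    rw [FreeGroup.lift_apply_of]
  cases b
  · have h2 : (FreeGroup.mk [(i, false)] : FreeGroup (Fin (M + 3))) =
      (FreeGroup.mk [(i, true)])⁻¹ := rfl
    rw [h2, map_inv, h1, FreeGroup.inv_mk]
    congr 1
    rcases letter_cases i with rfl | rfl | rfl | ⟨h0, h1, h2⟩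
    · rw [S_c0t, S_c0f]; rfl
    · rw [S_c1, S_c1]; rfl
    · rw [S_c2, S_c2]; rfl
    · rw [S_other h0 h1 h2, S_other h0 h1 h2]; rfl
  · exact h1

theorem psi_mk (l : List (Let M)) : psi (FreeGroup.mk l) = FreeGroup.mk (Sw l) := by
  induction l with
  | nil =>
    show psi 1 = 1
    exact map_one _
  | cons x l ih =>
    have e : (FreeGroup.mk (x :: l) : FreeGroup (Fin (M + 3))) =
        FreeGroup.mk [x] * FreeGroup.mk l := by rw [FreeGroup.mul_mk]; rfl
    rw [e, map_mul, ih, psi_letter, FreeGroup.mul_mk, Sw_cons]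

/-- Some iterate of `g` is legal. -/
def P (g : FreeGroup (Fin (M + 3))) : Prop :=
  ∃ n l, (psi^[n]) g = FreeGroup.mk l ∧ List.IsChain R l

theorem P_of_chain {l : List (Let M)} (h : List.IsChain R l) : P (FreeGroup.mk l) :=
  ⟨0, l, rfl, h⟩

theorem P_step {g : FreeGroup (Fin (M + 3))} (h : P (psi g)) : P g := by
  obtain ⟨n, l, h1, h2⟩ := h
  exact ⟨n + 1, l, by rw [Function.iterate_succ_apply]; exact h1, h2⟩

theorem P_iter {g : FreeGroup (Fin (M + 3))} (n : ℕ) (h : P ((psi^[n]) g)) : P g := by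
  obtain ⟨m, l, h1, h2⟩ := h
  refine ⟨m + n, l, ?_, h2⟩
  rw [Function.iterate_add_apply]; exact h1

theorem chain_left {l l' : List (Let M)} (h : List.IsChain R (l ++ l')) : List.IsChain R l :=
  (List.isChain_append.mp h).1

theorem chain_right {l l' : List (Let M)} (h : List.IsChain R (l ++ l')) : List.IsChain R l' :=
  (List.isChain_append.mp h).2.1

/-- glue at a common letter -/
theorem chain_glue {u v : List (Let M)} {x : Let M} (h1 : List.IsChain R (u ++ [x]))
    (h2 : List.IsChain R (x :: v)) : List.IsChain R (u ++ x :: v) := by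
  rw [List.isChain_append] at h1 ⊢
  refine ⟨h1.1, h2, ?_⟩
  intro p hp q hq
  exact h1.2.2 p hp q (by simpa using hq)

theorem ab0 {u v : List (Let M)} (h1 : List.IsChain R (u ++ [(c0, true)]))
    (h2 : List.IsChain R ((c1, true) :: v))
    (h3 : ∀ y ∈ v.head?, y ≠ (c1, true) ∧ y ≠ (c0, false)) :
    P (FreeGroup.mk (u ++ (c0, true) :: (c1, true) :: v)) := by
  apply P_step
  rw [psi_mk, Sw_append, Sw_cons, Sw_cons, S_c0t, S_c1]
  have e : (FreeGroup.mk (Sw u ++ ([(c2, true), (c0, false)] ++ ([(c0, true)] ++ Sw v))) :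
      FreeGroup (Fin (M + 3))) = FreeGroup.mk (Sw u ++ (c2, true) :: Sw v) := by
    apply Quot.sound
    have := @FreeGroup.Red.Step.not (Fin (M + 3)) (Sw u ++ [(c2, true)]) (Sw v) c0 false
    simpa using this
  rw [e]
  apply P_of_chain
  apply chain_glue
  · have := Sw_chain h1
    rw [Sw_append, Sw_cons, Sw_nil, S_c0t, List.append_nil] at this
    have e2 : Sw u ++ [(c2, true), (c0, false)] = (Sw u ++ [(c2, true)]) ++ [((c0, false) : Let M)] := by
      simp
    rw [e2] at this
    exact chain_left this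
  · cases v with
    | nil => simp [Sw_nil]
    | cons y v =>
      have h4 := h3 y (by simp)
      rw [Sw_cons]
      have h5 : List.IsChain R (S y ++ Sw v) := by
        rw [← Sw_cons]
        exact Sw_chain (List.IsChain.tail h2)
      have h6 : R (c1, true) y := (List.isChain_cons_cons.mp h2).1
      cases hS : S y with
      | nil => exact absurd hS (S_ne_nil y)
      | cons z zs =>
        rw [hS] at h5
        rw [List.cons_append] at h5 ⊢
        rw [List.isChain_cons_cons]
        refine ⟨?_, h5⟩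
        obtain ⟨j, c⟩ := y
        rcases letter_cases j with rfl | rfl | rfl | ⟨k0, k1, k2⟩ <;> cases c <;>
        simp_all [R, Bad, S_c0t, S_c0f, S_c1, S_c2, S_other, c02, c02.symm, c01, c01.symm, c12,
          c12.symm, Ne.symm] <;>
        (obtain ⟨rfl, _⟩ := hS; simp_all [Ne.symm, c02, c02.symm, c01, c01.symm, c12, c12.symm])

end Pool.Agent.H472R3
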