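import Mathlib
import Pool.Agent.H472R3.Dyn

set_option autoImplicit false
set_option linter.unusedSimpArgs false

namespace Pool.Agent.H472R3

variable {M : ℕ}

theorem ca0 {u v : List (Let M)} (h1 : List.IsChain R (u ++ [(c2, true)]))
    (h2 : List.IsChain R ((c0, true) :: v)) :
    P (FreeGroup.mk (u ++ (c2, true) :: (c0, true) :: v)) := by
  apply P_step
  apply P_step
  rw [psi_mk, psi_mk, Sw_append, Sw_cons, Sw_cons, S_c2, S_c0t, Sw_append, Sw_append, Sw_cons,
    Sw_nil, S_c1, Sw_append, Sw_cons, Sw_cons, Sw_nil, S_c2, S_c0f]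
  have a1 := Sw_chain (Sw_chain h1)
  have a2 := Sw_chain (Sw_chain h2)
  rw [Sw_append, Sw_cons, Sw_nil, S_c2, Sw_append, List.append_nil, Sw_cons, Sw_nil, S_c1,
    List.append_nil] at a1
  rw [Sw_cons, S_c0t, Sw_append, Sw_cons, Sw_cons, Sw_nil, S_c2, S_c0f] at a2
  have := ab0 (u := Sw (Sw u)) (v := [(c0, true), (c2, false)] ++ Sw (Sw v)) a1
    (by simpa using a2) (by
      intro y hy
      simp at hy
      subst hy
      simp [c01])
  simpa using this

theorem abGen {u v : List (Let M)} (h1 : List.IsChain R (u ++ [(c0, true)]))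
    (h2 : List.IsChain R ((c1, true) :: v)) :
    P (FreeGroup.mk (u ++ (c0, true) :: (c1, true) :: v)) := by
  by_cases h3 : ∀ y ∈ v.head?, y ≠ (c1, true) ∧ y ≠ (c0, false)
  · exact ab0 h1 h2 h3
  cases v with
  | nil => exact absurd (by simp) h3
  | cons y v =>
    have hy : y = (c1, true) ∨ y = (c0, false) := by
      by_contra hc
      push Not at hc
      apply h3
      intro z hz
      simp at hz
      subst hz
      exact hc
    have b1 := Sw_chain h1
    rw [Sw_append, Sw_cons, Sw_nil, S_c0t, List.append_nil] at b1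
    have e2 : Sw u ++ [(c2, true), (c0, false)] =
      (Sw u ++ [(c2, true)]) ++ [((c0, false) : Let M)] := by simp
    rw [e2] at b1
    have b2 := chain_left b1
    have b3 := Sw_chain (List.IsChain.tail h2)
    simp only [List.tail_cons] at b3
    apply P_step
    rw [psi_mk, Sw_append, Sw_cons, Sw_cons, S_c0t, S_c1]
    have e : ∀ v' : List (Let M),
        (FreeGroup.mk (Sw u ++ ([(c2, true), (c0, false)] ++ ([(c0, true)] ++ v'))) :
        FreeGroup (Fin (M + 3))) = FreeGroup.mk (Sw u ++ (c2, true) :: v') := by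
      intro v'
      apply Quot.sound
      have := @FreeGroup.Red.Step.not (Fin (M + 3)) (Sw u ++ [(c2, true)]) v' c0 false
      simpa using this
    rw [e]
    rcases hy with rfl | rfl
    · rw [Sw_cons, S_c1] at b3 ⊢
      exact ca0 b2 b3
    · rw [Sw_cons, S_c0f] at b3 ⊢
      exact ca0 b2 b3

theorem bcGen {u v : List (Let M)} (h1 : List.IsChain R (u ++ [(c1, true)]))
    (h2 : List.IsChain R ((c2, true) :: v)) :
    P (FreeGroup.mk (u ++ (c1, true) :: (c2, true) :: v)) := by
  apply P_step
  have a1 := Sw_chain h1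
  have a2 := Sw_chain h2
  rw [Sw_append, Sw_cons, Sw_nil, S_c1, List.append_nil] at a1
  rw [Sw_cons, S_c2] at a2
  rw [psi_mk, Sw_append, Sw_cons, Sw_cons, S_c1, S_c2]
  exact abGen a1 a2

theorem R_inv {x y : Let M} (h : R x y) : R (y.1, !y.2) (x.1, !x.2) := by
  obtain ⟨i, b⟩ := x
  obtain ⟨j, c⟩ := y
  obtain ⟨h1, h2⟩ := h
  refine ⟨?_, ?_⟩
  · intro h3
    have := h1 h3.symm
    simp only at this ⊢
    rw [this]
  · intro h3
    apply h2
    unfold Bad at *
    simp only [Prod.mk.injEq] at *
    cases b <;> cases c <;> simp_all <;> tauto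

theorem chain_inv {l : List (Let M)} (h : List.IsChain R l) :
    List.IsChain R (FreeGroup.invRev l) := by
  unfold FreeGroup.invRev
  rw [List.isChain_reverse, List.isChain_map]
  exact h.imp (fun x y hxy => R_inv hxy)

theorem P_inv {g : FreeGroup (Fin (M + 3))} (h : P g) : P g⁻¹ := by
  obtain ⟨n, l, h1, h2⟩ := h
  refine ⟨n, FreeGroup.invRev l, ?_, chain_inv h2⟩
  rw [← FreeGroup.inv_mk, ← h1]
  clear h1
  induction n generalizing g with
  | zero => rfl
  | succ n ih => rw [Function.iterate_succ_apply, Function.iterate_succ_apply, map_inv, ih]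

/-- inverse of a split word -/
theorem inv_split (u v : List (Let M)) (x y : Let M) :
    (FreeGroup.mk (u ++ x :: y :: v) : FreeGroup (Fin (M + 3))) =
    (FreeGroup.mk (FreeGroup.invRev v ++ (y.1, !y.2) :: (x.1, !x.2) :: FreeGroup.invRev u))⁻¹ := by
  rw [FreeGroup.inv_mk]
  congr 1
  have e : ((fun g : Let M => (g.1, !g.2)) ∘ fun g => (g.1, !g.2)) = id := by
    funext g; simp
  simp [FreeGroup.invRev, e]

theorem chain_inv_left {u : List (Let M)} {x : Let M} (h : List.IsChain R (u ++ [x])) :
    List.IsChain R ((x.1, !x.2) :: FreeGroup.invRev u) := by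
  have := chain_inv h
  simpa [FreeGroup.invRev] using this

theorem chain_inv_right {v : List (Let M)} {x : Let M} (h : List.IsChain R (x :: v)) :
    List.IsChain R (FreeGroup.invRev v ++ [(x.1, !x.2)]) := by
  have := chain_inv h
  simpa [FreeGroup.invRev] using this

theorem bad_junction {u v : List (Let M)} {x y : Let M} (h1 : List.IsChain R (u ++ [x]))
    (h2 : List.IsChain R (y :: v)) (h : Bad x y) : P (FreeGroup.mk (u ++ x :: y :: v)) := by
  rcases h with ⟨rfl, rfl⟩ | ⟨rfl, rfl⟩ | ⟨rfl, rfl⟩ | ⟨rfl, rfl⟩ | ⟨rfl, rfl⟩ | ⟨rfl, rfl⟩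
  · exact abGen h1 h2
  · exact bcGen h1 h2
  · exact ca0 h1 h2
  · rw [inv_split]
    exact P_inv (abGen (chain_inv_right h2) (chain_inv_left h1))
  · rw [inv_split]
    exact P_inv (bcGen (chain_inv_right h2) (chain_inv_left h1))
  · rw [inv_split]
    exact P_inv (ca0 (chain_inv_right h2) (chain_inv_left h1))

theorem P_mul_aux (n : ℕ) : ∀ (u v : List (Let M)), u.length = n → List.IsChain R u →
    List.IsChain R v → P (FreeGroup.mk (u ++ v)) := by
  induction n with
  | zero =>
    intro u v hn _ hv
    rw [List.length_eq_zero_iff] at hn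
    subst hn
    exact P_of_chain hv
  | succ n ih =>
    intro u v hn hu hv
    rcases List.eq_nil_or_concat u with rfl | ⟨u', x, rfl⟩
    · simp at hn
    rw [List.concat_eq_append] at *
    cases v with
    | nil => rw [List.append_nil]; exact P_of_chain hu
    | cons y v =>
      by_cases hxy : x.1 = y.1 ∧ x.2 = !y.2
      · have e : (FreeGroup.mk (u' ++ [x] ++ y :: v) : FreeGroup (Fin (M + 3))) =
            FreeGroup.mk (u' ++ v) := by
          apply Quot.sound
          have hx : x = (y.1, !y.2) := Prod.ext hxy.1 hxy.2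
          rw [hx]
          have := @FreeGroup.Red.Step.not (Fin (M + 3)) u' v y.1 (!y.2)
          simpa using this
        rw [e]
        apply ih u' v
        · simp at hn; exact hn
        · exact chain_left hu
        · exact List.IsChain.tail hv
      · have e : u' ++ [x] ++ y :: v = u' ++ x :: y :: v := by simp
        rw [e]
        by_cases hb : Bad x y
        · exact bad_junction hu hv hb
        · apply P_of_chain
          apply chain_glue hu
          rw [List.isChain_cons_cons]
          refine ⟨⟨?_, hb⟩, hv⟩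
          intro h1
          by_contra h2
          apply hxy
          refine ⟨h1, ?_⟩
          revert h2
          cases x.2 <;> cases y.2 <;> simp

theorem iter_mk (n : ℕ) (l : List (Let M)) : (psi^[n]) (FreeGroup.mk l) =
    FreeGroup.mk ((Sw^[n]) l) := by
  induction n generalizing l with
  | zero => rfl
  | succ n ih => rw [Function.iterate_succ_apply, Function.iterate_succ_apply, psi_mk, ih]

theorem iter_chain (n : ℕ) {l : List (Let M)} (h : List.IsChain R l) :
    List.IsChain R ((Sw^[n]) l) := by
  induction n generalizing l with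
  | zero => exact h
  | succ n ih => rw [Function.iterate_succ_apply]; exact ih (Sw_chain h)

theorem iter_mul (n : ℕ) (g h : FreeGroup (Fin (M + 3))) :
    (psi^[n]) (g * h) = (psi^[n]) g * (psi^[n]) h := by
  induction n generalizing g h with
  | zero => rfl
  | succ n ih => rw [Function.iterate_succ_apply, Function.iterate_succ_apply,
      Function.iterate_succ_apply, map_mul, ih]

/-- Every element becomes legal. -/
theorem P_all (g : FreeGroup (Fin (M + 3))) : P g := by
  obtain ⟨l, rfl⟩ : ∃ l, FreeGroup.mk l = g := ⟨g.toWord, FreeGroup.mk_toWord⟩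
  induction l with
  | nil => exact P_of_chain List.isChain_nil
  | cons x l ih =>
    obtain ⟨n, l1, h1, h2⟩ := ih
    apply P_iter n
    have e : (FreeGroup.mk (x :: l) : FreeGroup (Fin (M + 3))) =
        FreeGroup.mk [x] * FreeGroup.mk l := by rw [FreeGroup.mul_mk]; rfl
    rw [e, iter_mul, h1, iter_mk, FreeGroup.mul_mk]
    exact P_mul_aux _ _ _ rfl (iter_chain n (List.isChain_singleton x)) h2

end Pool.Agent.H472R3
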