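import Mathlib
import Pool.Agent.H472R3.Legal

set_option autoImplicit false
set_option linter.unusedSimpArgs false

namespace Pool.Agent.H472R3

open Filter Topology

variable {M : ℕ}

theorem exists_lam : ∃ x : ℝ, 1 < x ∧ x ^ 3 = x ^ 2 + 1 := by
  have hc : Continuous (fun x : ℝ => x ^ 3 - x ^ 2) := by fun_prop
  have := intermediate_value_Icc (show (1 : ℝ) ≤ 2 by norm_num) hc.continuousOn
  have h1 : (1 : ℝ) ∈ Set.Icc ((1 : ℝ) ^ 3 - 1 ^ 2) (2 ^ 3 - 2 ^ 2) := by
    constructor <;> norm_num
  obtain ⟨x, hx, hx1⟩ := this h1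
  simp only at hx1
  refine ⟨x, ?_, by linarith⟩
  rcases eq_or_lt_of_le hx.1 with h | h
  · rw [← h] at hx1; norm_num at hx1
  · exact h

noncomputable def lam : ℝ := exists_lam.choose
theorem lam_gt : 1 < lam := exists_lam.choose_spec.1
theorem lam_eq : lam ^ 3 = lam ^ 2 + 1 := exists_lam.choose_spec.2
theorem lam_pos : 0 < lam := lt_trans one_pos lam_gt

/-- Weights at level `n`. -/
noncomputable def wt (n : ℕ) (i : Fin (M + 3)) : ℝ :=
  if i = c0 then lam ^ 2 / lam ^ n else if i = c1 then lam / lam ^ n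
  else if i = c2 then 1 / lam ^ n else 1

theorem wt0 (n : ℕ) : wt n (c0 : Fin (M + 3)) = lam ^ 2 / lam ^ n := by simp [wt]
theorem wt1 (n : ℕ) : wt n (c1 : Fin (M + 3)) = lam / lam ^ n := by simp [wt, c01.symm]
theorem wt2 (n : ℕ) : wt n (c2 : Fin (M + 3)) = 1 / lam ^ n := by simp [wt, c02.symm, c12.symm]
theorem wt_other (n : ℕ) {i : Fin (M + 3)} (h0 : i ≠ c0) (h1 : i ≠ c1) (h2 : i ≠ c2) :
    wt n i = 1 := by simp [wt, h0, h1, h2]

theorem wt_ge (n : ℕ) (i : Fin (M + 3)) : 1 / lam ^ n ≤ wt n i := by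
  have hl := lam_gt
  have hp : 0 < lam ^ n := pow_pos lam_pos n
  rcases letter_cases i with rfl | rfl | rfl | ⟨h0, h1, h2⟩
  · rw [wt0]; gcongr; nlinarith
  · rw [wt1]; gcongr
  · rw [wt2]
  · rw [wt_other n h0 h1 h2, div_le_one hp]
    exact one_le_pow₀ hl.le

theorem wt_pos (n : ℕ) (i : Fin (M + 3)) : 0 < wt n i :=
  lt_of_lt_of_le (div_pos one_pos (pow_pos lam_pos n)) (wt_ge n i)

theorem W_S (n : ℕ) (x : Let M) : W (wt (n + 1)) (S x) = wt n x.1 := by
  have hp : lam ^ n ≠ 0 := (pow_pos lam_pos n).ne'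
  have hl : lam ≠ 0 := lam_pos.ne'
  have h3 := lam_eq
  obtain ⟨i, b⟩ := x
  rcases letter_cases i with rfl | rfl | rfl | ⟨h0, h1, h2⟩
  · have key : 1 / lam ^ (n + 1) + lam ^ 2 / lam ^ (n + 1) = lam ^ 2 / lam ^ n := by
      rw [← add_div, div_eq_div_iff (by have := lam_pos; positivity) hp]
      have e1 : 1 + lam ^ 2 = lam ^ 3 := by rw [h3]; ring
      rw [e1]; ring
    cases b
    · rw [S_c0f, W_cons, W_cons, W_nil]
      simp only
      rw [wt0, wt2, wt0, ← key]; ring
    · rw [S_c0t, W_cons, W_cons, W_nil]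
      simp only
      rw [wt0, wt2, wt0, ← key]; ring
  · rw [S_c1, W_cons, W_nil]
    simp only
    rw [wt0, wt1, add_zero, pow_succ, div_eq_div_iff (by positivity) hp]; ring
  · rw [S_c2, W_cons, W_nil]
    simp only
    rw [wt1, wt2, add_zero, pow_succ, div_eq_div_iff (by positivity) hp]; ring
  · rw [S_other h0 h1 h2, W_cons, W_nil]
    simp only
    rw [wt_other _ h0 h1 h2, wt_other _ h0 h1 h2]; ring

theorem W_Sw (n : ℕ) (l : List (Let M)) : W (wt (n + 1)) (Sw l) = W (wt n) l := by
  induction l with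
  | nil => rfl
  | cons x l ih => rw [Sw_cons, W_append, W_cons, ih, W_S]

theorem W_iter (n k : ℕ) (l : List (Let M)) : W (wt (n + k)) ((Sw^[k]) l) = W (wt n) l := by
  induction k generalizing n l with
  | zero => rfl
  | succ k ih =>
    rw [Function.iterate_succ_apply, show n + (k + 1) = (n + 1) + k by ring, ih, W_Sw]

theorem chain_reduced {l : List (Let M)} (h : List.IsChain R l) : FreeGroup.IsReduced l :=
  h.imp (fun _ _ hxy => hxy.1)

/-- iterate as a homomorphism -/
def psiPow : ℕ → (FreeGroup (Fin (M + 3)) →* FreeGroup (Fin (M + 3)))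
  | 0 => MonoidHom.id _
  | n + 1 => (psiPow n).comp psi

theorem psiPow_apply (n : ℕ) (g : FreeGroup (Fin (M + 3))) : psiPow n g = (psi^[n]) g := by
  induction n generalizing g with
  | zero => rfl
  | succ n ih => rw [Function.iterate_succ_apply, ← ih]; rfl

/-- Length function at level `n`. -/
noncomputable def ell (M n : ℕ) : LenFn (M + 3) :=
  LenFn.ofHom (w := wt n) (fun i => (wt_pos n i).le) (psiPow n)

theorem ell_L (n : ℕ) (g : FreeGroup (Fin (M + 3))) :
    (ell M n).L g = wl (wt n) ((psi^[n]) g) := by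
  rw [← psiPow_apply]; rfl

/-- Eventual constancy, quantitative form. -/
theorem ell_const {g : FreeGroup (Fin (M + 3))} {n : ℕ} {l : List (Let M)}
    (h : (psi^[n]) g = FreeGroup.mk l) (hl : List.IsChain R l) (k : ℕ) :
    (ell M (n + k)).L g = W (wt n) l := by
  rw [ell_L, add_comm n k, Function.iterate_add_apply, h, iter_mk,
    wl_mk (chain_reduced (iter_chain k hl)), add_comm k n, W_iter]

theorem ell_eventually (g : FreeGroup (Fin (M + 3))) :
    ∃ n, ∀ m, n ≤ m → (ell M m).L g = (ell M n).L g := by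
  obtain ⟨n, l, h1, h2⟩ := P_all g
  refine ⟨n, fun m hm => ?_⟩
  obtain ⟨k, rfl⟩ := Nat.exists_eq_add_of_le hm
  rw [ell_const h1 h2 k]
  have := ell_const h1 h2 0
  rw [add_zero] at this
  rw [this]

noncomputable def N0 (g : FreeGroup (Fin (M + 3))) : ℕ := (ell_eventually g).choose

noncomputable def Linf (g : FreeGroup (Fin (M + 3))) : ℝ := (ell M (N0 g)).L g

theorem Linf_eq {g : FreeGroup (Fin (M + 3))} {m : ℕ} (h : N0 g ≤ m) :
    (ell M m).L g = Linf g := (ell_eventually g).choose_spec m h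

/-- For finitely many elements there is a common level. -/
theorem exists_level (s : Finset (FreeGroup (Fin (M + 3)))) :
    ∃ n, ∀ g ∈ s, ∀ m, n ≤ m → (ell M m).L g = Linf g := by
  refine ⟨s.sup N0, fun g hg m hm => Linf_eq (le_trans (Finset.le_sup hg) hm)⟩

/-- The limit length function. -/
noncomputable def ellInf (M : ℕ) : LenFn (M + 3) where
  L := Linf
  one := (ell M _).one
  inv g := by
    classical
    obtain ⟨n, hn⟩ := exists_level {g, g⁻¹}
    rw [← hn g (by simp) n le_rfl, ← hn g⁻¹ (by simp) n le_rfl]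
    exact (ell M n).inv g
  um g h k := by
    classical
    obtain ⟨n, hn⟩ := exists_level {g, h, k, g⁻¹ * h, h⁻¹ * k, g⁻¹ * k}
    rw [← hn g (by simp) n le_rfl, ← hn h (by simp) n le_rfl, ← hn k (by simp) n le_rfl,
      ← hn (g⁻¹ * h) (by simp) n le_rfl, ← hn (h⁻¹ * k) (by simp) n le_rfl,
      ← hn (g⁻¹ * k) (by simp) n le_rfl]
    exact (ell M n).um g h k

theorem ellInf_L (g : FreeGroup (Fin (M + 3))) : (ellInf M).L g = Linf g := rfl

theorem psi_injective : Function.Injective (psi : FreeGroup (Fin (M + 3)) →* _) := by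
  -- explicit inverse
  let f : FreeGroup (Fin (M + 3)) →* FreeGroup (Fin (M + 3)) :=
    FreeGroup.lift (fun i => if i = c0 then FreeGroup.of c1 else if i = c1 then FreeGroup.of c2
      else if i = c2 then FreeGroup.of c0 * FreeGroup.of c1 else FreeGroup.of i)
  have hf : ∀ i, f (FreeGroup.of i) = if i = c0 then FreeGroup.of c1 else
      if i = c1 then FreeGroup.of c2 else if i = c2 then FreeGroup.of c0 * FreeGroup.of c1
      else FreeGroup.of i := by
    intro i; exact FreeGroup.lift_apply_of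
  have h0 : (psi (FreeGroup.of (c0 : Fin (M + 3)))) = FreeGroup.of c2 * (FreeGroup.of c0)⁻¹ := by
    have := psi_letter ((c0, true) : Let M)
    rw [S_c0t] at this
    exact this
  have h1 : (psi (FreeGroup.of (c1 : Fin (M + 3)))) = FreeGroup.of c0 := by
    have := psi_letter ((c1, true) : Let M)
    rw [S_c1] at this
    exact this
  have h2 : (psi (FreeGroup.of (c2 : Fin (M + 3)))) = FreeGroup.of c1 := by
    have := psi_letter ((c2, true) : Let M)
    rw [S_c2] at this
    exact this
  have h3 : ∀ i : Fin (M + 3), i ≠ c0 → i ≠ c1 → i ≠ c2 →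
      psi (FreeGroup.of i) = FreeGroup.of i := by
    intro i k0 k1 k2
    have := psi_letter ((i, true) : Let M)
    rw [S_other k0 k1 k2] at this
    exact this
  have hcomp : f.comp psi = MonoidHom.id _ := by
    ext i
    rw [MonoidHom.comp_apply, MonoidHom.id_apply]
    rcases letter_cases i with rfl | rfl | rfl | ⟨k0, k1, k2⟩
    · rw [h0, map_mul, map_inv, hf, hf]
      simp [c02.symm, c12.symm]
    · rw [h1, hf]; simp
    · rw [h2, hf]; simp [c01.symm]
    · rw [h3 i k0 k1 k2, hf]; simp [k0, k1, k2]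
  intro x y hxy
  have := congrArg f hxy
  rw [← MonoidHom.comp_apply, ← MonoidHom.comp_apply, hcomp] at this
  simpa using this

theorem psi_surjective : Function.Surjective (psi : FreeGroup (Fin (M + 3)) →* _) := by
  have h0 : (psi (FreeGroup.of (c0 : Fin (M + 3)))) = FreeGroup.of c2 * (FreeGroup.of c0)⁻¹ := by
    have := psi_letter ((c0, true) : Let M)
    rw [S_c0t] at this
    exact this
  have h1 : (psi (FreeGroup.of (c1 : Fin (M + 3)))) = FreeGroup.of c0 := by
    have := psi_letter ((c1, true) : Let M)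
    rw [S_c1] at this
    exact this
  have h2 : (psi (FreeGroup.of (c2 : Fin (M + 3)))) = FreeGroup.of c1 := by
    have := psi_letter ((c2, true) : Let M)
    rw [S_c2] at this
    exact this
  have h3 : ∀ i : Fin (M + 3), i ≠ c0 → i ≠ c1 → i ≠ c2 →
      psi (FreeGroup.of i) = FreeGroup.of i := by
    intro i k0 k1 k2
    have := psi_letter ((i, true) : Let M)
    rw [S_other k0 k1 k2] at this
    exact this
  rw [← MonoidHom.range_eq_top, eq_top_iff, ← FreeGroup.closure_range_of, Subgroup.closure_le]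
  rintro _ ⟨i, rfl⟩
  rcases letter_cases i with rfl | rfl | rfl | ⟨k0, k1, k2⟩
  · exact ⟨_, h1⟩
  · exact ⟨_, h2⟩
  · refine ⟨FreeGroup.of c0 * FreeGroup.of c1, ?_⟩
    rw [map_mul, h0, h1]; group
  · exact ⟨_, h3 i k0 k1 k2⟩

theorem iter_ne_one {g : FreeGroup (Fin (M + 3))} (hg : g ≠ 1) (n : ℕ) : (psi^[n]) g ≠ 1 := by
  induction n generalizing g with
  | zero => exact hg
  | succ n ih =>
    rw [Function.iterate_succ_apply]
    apply ih
    intro h
    apply hg
    apply psi_injective
    rw [h, map_one]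

theorem ell_sq (n : ℕ) {g : FreeGroup (Fin (M + 3))} (hg : g ≠ 1) :
    1 / lam ^ n ≤ (ell M n).L (g * g) - (ell M n).L g := by
  rw [ell_L, ell_L, iter_mul]
  exact wl_sq (div_pos one_pos (pow_pos lam_pos n)).le (wt_ge n) _ (iter_ne_one hg n)

theorem ellInf_sq {g : FreeGroup (Fin (M + 3))} (hg : g ≠ 1) :
    (ellInf M).L g < (ellInf M).L (g * g) := by
  classical
  obtain ⟨n, hn⟩ := exists_level {g, g * g}
  rw [ellInf_L, ellInf_L, ← hn g (by simp) n le_rfl, ← hn (g * g) (by simp) n le_rfl]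
  have := ell_sq (M := M) n hg
  have h2 : 0 < 1 / lam ^ n := div_pos one_pos (pow_pos lam_pos n)
  linarith

/-- powers of the third letter -/
theorem chain_replicate (x : Let M) (k : ℕ) : List.IsChain R (List.replicate k x) := by
  have hR : R x x := by
    refine ⟨fun _ => rfl, ?_⟩
    intro h
    obtain ⟨i, b⟩ := x
    unfold Bad at h
    rcases h with ⟨h1, h2⟩ | ⟨h1, h2⟩ | ⟨h1, h2⟩ | ⟨h1, h2⟩ | ⟨h1, h2⟩ | ⟨h1, h2⟩ <;>
    · rw [h1] at h2
      simp only [Prod.mk.injEq] at h2
      first
        | exact c01 h2.1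
        | exact c12 h2.1
        | exact c02.symm h2.1
        | exact c01.symm h2.1
        | exact c12.symm h2.1
        | exact c02 h2.1
  induction k with
  | zero => exact List.isChain_nil
  | succ k ih =>
    rw [List.replicate_succ]
    cases k with
    | zero => exact List.isChain_singleton _
    | succ k =>
      rw [List.replicate_succ, List.isChain_cons_cons]
      rw [List.replicate_succ] at ih
      exact ⟨hR, ih⟩

theorem mk_replicate (i : Fin (M + 3)) (k : ℕ) :
    (FreeGroup.of i) ^ k = FreeGroup.mk (List.replicate k (i, true)) := by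
  induction k with
  | zero => rfl
  | succ k ih =>
    rw [pow_succ', ih, List.replicate_succ]
    have : (FreeGroup.of i : FreeGroup (Fin (M + 3))) = FreeGroup.mk [(i, true)] := rfl
    rw [this, FreeGroup.mul_mk]; rfl

theorem W_replicate (w : Fin (M + 3) → ℝ) (x : Let M) (k : ℕ) :
    W w (List.replicate k x) = k * w x.1 := by
  simp [W]

theorem ell_pow (n k : ℕ) (i : Fin (M + 3)) :
    (ell M n).L ((FreeGroup.of i) ^ k) = k * wt 0 i := by
  have := ell_const (g := (FreeGroup.of i) ^ k) (n := 0) (mk_replicate i k)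
    (chain_replicate _ _) n
  rw [zero_add] at this
  rw [this, W_replicate]

theorem ell_pow' (n : ℕ) (i : Fin (M + 3)) (k : ℕ) :
    (ell M n).L ((FreeGroup.of i) ^ k) = k * (ell M n).L (FreeGroup.of i) := by
  have := ell_pow n 1 i
  rw [pow_one] at this
  rw [ell_pow, this]; simp

theorem ellInf_pow (i : Fin (M + 3)) (k : ℕ) :
    (ellInf M).L ((FreeGroup.of i) ^ k) = k * (ellInf M).L (FreeGroup.of i) := by
  classical
  obtain ⟨n, hn⟩ := exists_level {(FreeGroup.of i) ^ k, FreeGroup.of i}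
  rw [ellInf_L, ellInf_L, ← hn _ (by simp) n le_rfl, ← hn (FreeGroup.of i) (by simp) n le_rfl]
  exact ell_pow' n i k

theorem ell_of_pos (n : ℕ) (i : Fin (M + 3)) : 0 < (ell M n).L (FreeGroup.of i) := by
  have := ell_pow n 1 i
  rw [pow_one] at this
  rw [this]
  have := wt_pos 0 i
  push_cast
  linarith

theorem ellInf_of_pos (i : Fin (M + 3)) : 0 < (ellInf M).L (FreeGroup.of i) := by
  rw [ellInf_L, ← Linf_eq (m := N0 (FreeGroup.of i)) le_rfl]
  exact ell_of_pos _ i

/-- The free trees. -/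
noncomputable def treeN (M n : ℕ) : FTree (M + 3) := (ell M n).tree
/-- The limit tree. -/
noncomputable def treeInf (M : ℕ) : FTree (M + 3) := (ellInf M).tree

theorem treeN_inCV (n : ℕ) : (treeN M n).InCV := by
  have h2 : 0 < 1 / lam ^ n := div_pos one_pos (pow_pos lam_pos n)
  refine ⟨?_, ?_, ?_⟩
  · apply LenFn.free_tree
    intro g hg
    have := ell_sq (M := M) n hg
    linarith
  · exact LenFn.minimal_tree _ (FreeGroup.of c0) (ell_of_pos n c0) (ell_pow' n c0)
  · exact LenFn.discrete_tree _ h2 (fun g hg => ell_sq n hg)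

theorem treeInf_free : (treeInf M).Free := LenFn.free_tree _ (fun _ hg => ellInf_sq hg)

theorem treeInf_minimal : (treeInf M).Minimal :=
  LenFn.minimal_tree _ (FreeGroup.of c0) (ellInf_of_pos c0) (ellInf_pow c0)

theorem InCV.inClosure {N : ℕ} (hN : 0 < N) {A : FTree N} (h : A.InCV) : A.InClosure :=
  ⟨h.2.1, h.1.nontriv hN, h.1.verySmall, subset_closure ⟨A, h, rfl⟩⟩

/-- The lengths agree on a finite set from some level on. -/
theorem len_level (s : Finset (FreeGroup (Fin (M + 3)))) :
    ∃ n, ∀ m, n ≤ m → ∀ g ∈ s, (treeN M m).len g = (treeInf M).len g := by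
  classical
  obtain ⟨n, hn⟩ := exists_level (s ∪ s.image (fun g => g * g))
  refine ⟨n, fun m hm g hg => ?_⟩
  unfold treeN treeInf
  rw [LenFn.len_tree, LenFn.len_tree, ellInf_L, ellInf_L,
    ← hn g (by simp [hg]) m hm, ← hn (g * g) (by
      rw [Finset.mem_union]; right
      exact Finset.mem_image_of_mem _ hg) m hm]

theorem treeInf_inClosure : (treeInf M).InClosure := by
  refine ⟨treeInf_minimal, treeInf_free.nontriv (by omega), treeInf_free.verySmall, ?_⟩
  apply mem_closure_of_tendsto (f := fun m => (treeN M m).len) (b := atTop)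
  · rw [tendsto_pi_nhds]
    intro g
    obtain ⟨n, hn⟩ := len_level {g}
    apply tendsto_const_nhds.congr'
    filter_upwards [eventually_ge_atTop n] with m hm
    exact (hn m hm g (by simp)).symm
  · exact Eventually.of_forall (fun m => ⟨_, treeN_inCV m, rfl⟩)

/-- The element which distinguishes level `n` from the limit. -/
theorem len_ne (n : ℕ) : (treeN M n).len ≠ (treeInf M).len := by
  -- g with psi^n g = a b
  have hsurj : Function.Surjective (fun g => (psi^[n]) g : FreeGroup (Fin (M + 3)) → _) :=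
    psi_surjective.iterate n
  obtain ⟨g, hg⟩ := hsurj (FreeGroup.of c0 * FreeGroup.of c1)
  simp only at hg
  intro hlen
  have h1 := congrFun hlen g
  unfold treeN treeInf at h1
  rw [LenFn.len_tree, LenFn.len_tree] at h1
  -- level n
  have red2 : FreeGroup.IsReduced ([(c0, true), (c1, true)] : List (Let M)) := by
    unfold FreeGroup.IsReduced
    simp
  have red4 : FreeGroup.IsReduced
      ([(c0, true), (c1, true), (c0, true), (c1, true)] : List (Let M)) := by
    unfold FreeGroup.IsReduced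
    simp
  have eab : (FreeGroup.of c0 * FreeGroup.of c1 : FreeGroup (Fin (M + 3))) =
      FreeGroup.mk [(c0, true), (c1, true)] := rfl
  have L1 : (ell M n).L g = wt n (c0 : Fin (M + 3)) + wt n (c1 : Fin (M + 3)) := by
    rw [ell_L, hg, eab, wl_mk red2, W_cons, W_cons, W_nil]; ring
  have L2 : (ell M n).L (g * g) = 2 * (wt n (c0 : Fin (M + 3)) + wt n (c1 : Fin (M + 3))) := by
    rw [ell_L, iter_mul, hg, eab, FreeGroup.mul_mk]
    have : ([(c0, true), (c1, true)] ++ [(c0, true), (c1, true)] : List (Let M)) =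
      [(c0, true), (c1, true), (c0, true), (c1, true)] := rfl
    rw [this, wl_mk red4, W_cons, W_cons, W_cons, W_cons, W_nil]; ring
  -- level n + 1
  have hpsi : (psi^[n + 1]) g = FreeGroup.of c2 := by
    rw [Function.iterate_succ_apply', hg, eab, psi_mk, Sw_cons, Sw_cons, Sw_nil, S_c0t, S_c1]
    apply Quot.sound
    have := @FreeGroup.Red.Step.not (Fin (M + 3)) [(c2, true)] [] c0 false
    simpa using this
  have hpsi2 : (psi^[n + 1]) (g * g) = FreeGroup.of c2 ^ 2 := by
    rw [iter_mul, hpsi, pow_two]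
  have K1 : ∀ m, n + 1 ≤ m → (ell M m).L g = wt (n + 1) (c2 : Fin (M + 3)) := by
    intro m hm
    obtain ⟨k, rfl⟩ := Nat.exists_eq_add_of_le hm
    rw [ell_const (l := [(c2, true)]) hpsi (List.isChain_singleton _) k, W_cons, W_nil]
    simp
  have K2 : ∀ m, n + 1 ≤ m → (ell M m).L (g * g) = 2 * wt (n + 1) (c2 : Fin (M + 3)) := by
    intro m hm
    obtain ⟨k, rfl⟩ := Nat.exists_eq_add_of_le hm
    rw [mk_replicate] at hpsi2
    rw [ell_const hpsi2 (chain_replicate _ _) k, W_replicate]
    simp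
  have I1 : (ellInf M).L g = wt (n + 1) (c2 : Fin (M + 3)) := by
    rw [ellInf_L, ← Linf_eq (le_max_left (N0 g) (n + 1)), K1 _ (le_max_right _ _)]
  have I2 : (ellInf M).L (g * g) = 2 * wt (n + 1) (c2 : Fin (M + 3)) := by
    rw [ellInf_L, ← Linf_eq (le_max_left (N0 (g * g)) (n + 1)), K2 _ (le_max_right _ _)]
  rw [L1, L2, I1, I2] at h1
  have p0 := wt_pos n (c0 : Fin (M + 3))
  have p1 := wt_pos n (c1 : Fin (M + 3))
  have p2 := wt_pos (n + 1) (c2 : Fin (M + 3))
  rw [max_eq_right (by linarith), max_eq_right (by linarith)] at h1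
  have q : wt (n + 1) (c2 : Fin (M + 3)) < wt n (c1 : Fin (M + 3)) := by
    rw [wt2, wt1, pow_succ]
    have hp : 0 < lam ^ n := pow_pos lam_pos n
    rw [div_lt_div_iff₀ (by have := lam_pos; positivity) hp]
    have := lam_gt
    nlinarith [mul_pos hp lam_pos]
  linarith

end Pool.Agent.H472R3
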