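import Pool.Agent.H934R3.NP.Stmts

set_option autoImplicit false

open MeasureTheory Set Filter Topology
open scoped ENNReal NNReal

namespace Pool.Agent.H472R3.NPH2

open Pool.Agent.H934R3.NP

theorem grad_zero_of_fderiv {g : E → ℝ} {x : E} (h : fderiv ℝ g x = 0) : gradient g x = 0 := by
  unfold gradient
  rw [h, map_zero]

theorem freq_pos {g : E → ℝ} {x : E} (h0 : g x = 0) (hx : gradient g x ≠ 0) :
    ∃ᶠ z in 𝓝 x, 0 < g z := by
  intro h
  apply hx
  apply grad_zero_of_fderiv
  apply IsLocalMax.fderiv_eq_zero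
  filter_upwards [h] with z hz
  rw [h0]
  exact not_lt.1 hz

theorem freq_neg {g : E → ℝ} {x : E} (h0 : g x = 0) (hx : gradient g x ≠ 0) :
    ∃ᶠ z in 𝓝 x, g z < 0 := by
  intro h
  apply hx
  apply grad_zero_of_fderiv
  apply IsLocalMin.fderiv_eq_zero
  filter_upwards [h] with z hz
  rw [h0]
  exact not_lt.1 hz

theorem dG_bound (w v : E) : |inner ℝ (dG w) v| ≤ ‖v‖ * (1 / ‖w‖ ^ 2) := by
  have h1 : |inner ℝ (dG w) v| ≤ ‖dG w‖ * ‖v‖ := abs_real_inner_le_norm _ _
  have h2 : ‖dG w‖ ≤ 1 / ‖w‖ ^ 2 := by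
    by_cases hw : w = 0
    · subst hw
      simp [dG]
    · have hw' : 0 < ‖w‖ := norm_pos_iff.2 hw
      unfold dG
      rw [norm_smul, norm_neg, Real.norm_eq_abs, abs_of_pos (by positivity)]
      rw [div_mul_eq_mul_div, div_le_div_iff₀ (by positivity) (by positivity)]
      have : (1:ℝ) ≤ 4 * Real.pi := by nlinarith [Real.pi_gt_three]
      nlinarith [pow_pos hw' 3]
  calc |inner ℝ (dG w) v| ≤ ‖dG w‖ * ‖v‖ := h1
    _ ≤ (1 / ‖w‖ ^ 2) * ‖v‖ := by gcongr
    _ = _ := by ring

theorem intOn (hB : TaskB4) (x v : E) (R : ℝ) :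
    IntegrableOn (fun z => inner ℝ (dG (z - x)) v) (Metric.closedBall (0 : E) R) volume := by
  obtain ⟨C, hC, h⟩ := hB.1 R
  have hm : Measurable (fun z : E => (inner ℝ (dG (z - x)) v : ℝ)) := by
    have : Measurable (fun z : E => dG (z - x)) := by
      unfold dG
      fun_prop
    exact this.inner measurable_const
  refine ⟨hm.aestronglyMeasurable, ?_⟩
  rw [hasFiniteIntegral_iff_norm]
  calc ∫⁻ z in Metric.closedBall (0 : E) R, ENNReal.ofReal ‖(inner ℝ (dG (z - x)) v : ℝ)‖
      ≤ ∫⁻ z in Metric.closedBall (0 : E) R,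
          ENNReal.ofReal ‖v‖ * ENNReal.ofReal (1 / ‖z - x‖ ^ 2) := by
        apply lintegral_mono
        intro z
        show ENNReal.ofReal ‖(inner ℝ (dG (z - x)) v : ℝ)‖ ≤
          ENNReal.ofReal ‖v‖ * ENNReal.ofReal (1 / ‖z - x‖ ^ 2)
        rw [← ENNReal.ofReal_mul (norm_nonneg _)]
        apply ENNReal.ofReal_le_ofReal
        rw [Real.norm_eq_abs]
        exact dG_bound _ _
    _ = ENNReal.ofReal ‖v‖ * ∫⁻ z in Metric.closedBall (0 : E) R,
          ENNReal.ofReal (1 / ‖z - x‖ ^ 2) := by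
        rw [lintegral_const_mul]
        fun_prop
    _ ≤ ENNReal.ofReal ‖v‖ * ENNReal.ofReal C := by gcongr; exact h x
    _ < ∞ := ENNReal.mul_lt_top ENNReal.ofReal_lt_top ENNReal.ofReal_lt_top

theorem taskH2 : TaskH2 := by
  intro hN hB g hg c H
  obtain ⟨R, hR⟩ := hg.pos
  have hgc : Continuous g := hg.smooth.continuous
  have hSc : IsCompact (Sg g) := by
    refine Metric.isCompact_of_isClosed_isBounded (isClosed_eq hgc continuous_const) ?_
    refine (Metric.isBounded_ball (x := (0:E)) (r := R)).subset ?_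
    intro x hx
    rw [mem_ball_zero_iff]
    by_contra h
    have h1 := hR x (not_lt.1 h)
    have h2 : g x = 0 := hx
    rw [h2] at h1
    exact lt_irrefl _ h1
  obtain ⟨x0, hx0, hmax⟩ := hSc.exists_isMaxOn hg.ne
    (f := fun x => ‖x - c‖) (by fun_prop)
  have hmax' : ∀ y, g y = 0 → ‖y - c‖ ≤ ‖x0 - c‖ := fun y hy => hmax hy
  set r := ‖x0 - c‖ with hr
  have hOo : IsOpen (Om g) := isOpen_lt hgc continuous_const
  -- Om in the closed ball
  have hO1 : Om g ⊆ Metric.closedBall c r := by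
    intro z hz
    rw [mem_closedBall_iff_norm]
    by_contra hcon
    rw [not_le] at hcon
    have hzc : 0 < ‖z - c‖ := lt_of_le_of_lt (norm_nonneg _) hcon
    -- the ray
    let φ : ℝ → ℝ := fun t => g (c + t • (z - c))
    have hφc : Continuous φ := by
      apply hgc.comp
      fun_prop
    have h1 : φ 1 < 0 := by
      show g (c + (1:ℝ) • (z - c)) < 0
      rw [one_smul, add_sub_cancel]
      exact hz
    obtain ⟨T, hT1, hT2⟩ : ∃ T : ℝ, 1 ≤ T ∧ 0 < φ T := by
      refine ⟨max 1 ((|R| + ‖c‖) / ‖z - c‖), le_max_left _ _, ?_⟩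
      apply hR
      have h2 : (|R| + ‖c‖) / ‖z - c‖ * ‖z - c‖ = |R| + ‖c‖ := by field_simp
      have h3 : |R| + ‖c‖ ≤ max 1 ((|R| + ‖c‖) / ‖z - c‖) * ‖z - c‖ := by
        calc |R| + ‖c‖ = (|R| + ‖c‖) / ‖z - c‖ * ‖z - c‖ := h2.symm
          _ ≤ _ := mul_le_mul_of_nonneg_right (le_max_right _ _) hzc.le
      have h4 : ‖(max 1 ((|R| + ‖c‖) / ‖z - c‖)) • (z - c)‖ =
          max 1 ((|R| + ‖c‖) / ‖z - c‖) * ‖z - c‖ := by
        rw [norm_smul, Real.norm_eq_abs, abs_of_pos (lt_of_lt_of_le one_pos (le_max_left _ _))]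
      have h5 := norm_sub_le (c + (max 1 ((|R| + ‖c‖) / ‖z - c‖)) • (z - c)) c
      rw [add_sub_cancel_left, h4] at h5
      have h6 := le_abs_self R
      linarith
    have hIVT := intermediate_value_Icc hT1 hφc.continuousOn
    obtain ⟨t, ht, ht0⟩ := hIVT ⟨h1.le, hT2.le⟩
    have h7 := hmax' _ ht0
    rw [add_sub_cancel_left, norm_smul, Real.norm_eq_abs,
      abs_of_nonneg (zero_le_one.trans ht.1)] at h7
    nlinarith [ht.1]
  have hO2 : Om g ⊆ Metric.ball c r := by
    have := interior_maximal hO1 hOo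
    rwa [interior_closedBall'] at this
  -- nonempty
  obtain ⟨p, hp⟩ := hg.ne
  obtain ⟨q, hq⟩ := (freq_neg hp (hg.reg p hp)).exists
  have hrpos : 0 < r := by
    have := hO2 hq
    rw [Metric.mem_ball] at this
    exact lt_of_le_of_lt dist_nonneg this
  -- the integrals
  have hx0s : x0 ∈ Metric.sphere c r := by
    rw [mem_sphere_iff_norm]
  have hI1 := H x0 hx0 (x0 - c)
  have hI2 := hN c r hrpos x0 hx0s (x0 - c)
  have hint : IntegrableOn (fun z => (inner ℝ (dG (z - x0)) (x0 - c) : ℝ)) (Metric.ball c r)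
      volume := by
    refine (intOn hB x0 (x0 - c) (‖c‖ + r)).mono_set ?_
    intro z hz
    rw [mem_closedBall_zero_iff]
    rw [mem_ball_iff_norm] at hz
    calc ‖z‖ = ‖c + (z - c)‖ := by rw [add_sub_cancel]
      _ ≤ ‖c‖ + ‖z - c‖ := norm_add_le _ _
      _ ≤ ‖c‖ + r := by linarith
  have hdiff : ∫ z in Metric.ball c r \ Om g, (inner ℝ (dG (z - x0)) (x0 - c) : ℝ) = 0 := by
    rw [setIntegral_sdiff hOo.measurableSet hint hO2, hI1, hI2, sub_self]
  have hposint : ∀ z ∈ Metric.ball c r, 0 < (inner ℝ (dG (z - x0)) (x0 - c) : ℝ) := by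
    intro z hz
    rw [mem_ball_iff_norm] at hz
    have h1 : (inner ℝ (x0 - z) (x0 - c) : ℝ) = r ^ 2 - inner ℝ (z - c) (x0 - c) := by
      have : x0 - z = (x0 - c) - (z - c) := by abel
      rw [this, inner_sub_left, real_inner_self_eq_norm_sq]
    have h2 : (inner ℝ (z - c) (x0 - c) : ℝ) ≤ ‖z - c‖ * r := by
      have := abs_real_inner_le_norm (z - c) (x0 - c)
      exact (le_abs_self _).trans this
    have h3 : 0 < (inner ℝ (x0 - z) (x0 - c) : ℝ) := by
      rw [h1]; nlinarith
    have hne : z ≠ x0 := by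
      rintro rfl
      exact lt_irrefl _ hz
    have hn : 0 < ‖z - x0‖ := norm_pos_iff.2 (sub_ne_zero.2 hne)
    unfold dG
    rw [inner_smul_left]
    have h4 : (inner ℝ (z - x0) (x0 - c) : ℝ) = - inner ℝ (x0 - z) (x0 - c) := by
      rw [← inner_neg_left, neg_sub]
    rw [h4]
    simp only [conj_trivial]
    have h5 : 0 < 1 / (4 * Real.pi * ‖z - x0‖ ^ 3) := by positivity
    nlinarith [mul_pos h5 h3]
  have hnull : volume (Metric.ball c r \ Om g) = 0 := by
    have hms : MeasurableSet (Metric.ball c r \ Om g) :=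
      Metric.isOpen_ball.measurableSet.diff hOo.measurableSet
    by_contra hne
    have hpos : 0 < volume (Metric.ball c r \ Om g) := pos_iff_ne_zero.2 hne
    have h1 := (setIntegral_pos_iff_support_of_nonneg_ae
      (f := fun z => (inner ℝ (dG (z - x0)) (x0 - c) : ℝ))
      (s := Metric.ball c r \ Om g) (μ := volume) ?_ (hint.mono_set sdiff_subset)).2 ?_
    · rw [hdiff] at h1
      exact lt_irrefl _ h1
    · rw [Filter.EventuallyLE, ae_restrict_iff' hms]
      exact Filter.Eventually.of_forall (fun z hz => (hposint z hz.1).le)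
    · refine lt_of_lt_of_le hpos (measure_mono ?_)
      intro z hz
      exact ⟨(hposint z hz.1).ne', hz⟩
  have hle : ∀ z ∈ Metric.ball c r, g z ≤ 0 := by
    intro z hz
    by_contra hcon
    rw [not_le] at hcon
    have hop : IsOpen (Metric.ball c r ∩ {z | 0 < g z}) :=
      Metric.isOpen_ball.inter (isOpen_lt continuous_const hgc)
    have h1 : 0 < volume (Metric.ball c r ∩ {z | 0 < g z}) :=
      hop.measure_pos volume ⟨z, hz, hcon⟩
    have h2 : Metric.ball c r ∩ {z | 0 < g z} ⊆ Metric.ball c r \ Om g := by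
      rintro y ⟨hy1, hy2⟩
      refine ⟨hy1, ?_⟩
      intro hy3
      have hy3' : g y < 0 := hy3
      have hy2' : 0 < g y := hy2
      linarith
    have h3 := measure_mono (μ := volume) h2
    rw [hnull] at h3
    exact absurd h1 (not_lt.2 h3)
  have hball : Metric.ball c r ⊆ Om g := by
    intro z hz
    rcases lt_or_eq_of_le (hle z hz) with h | h
    · exact h
    · exfalso
      obtain ⟨y, hy1, hy2⟩ := ((freq_pos h (hg.reg z h)).and_eventually
        (Metric.isOpen_ball.mem_nhds hz)).exists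
      exact absurd (hle y hy2) (not_le.2 hy1)
  have hOm : Om g = Metric.ball c r := Set.Subset.antisymm hO2 hball
  refine ⟨r, hrpos, ?_⟩
  apply Set.Subset.antisymm
  · intro y hy
    have hy0 : g y = 0 := hy
    have h1 := hmax' y hy0
    rw [mem_sphere_iff_norm]
    apply le_antisymm h1
    by_contra hcon
    rw [not_le] at hcon
    have h2 : y ∈ Om g := hball (mem_ball_iff_norm.2 hcon)
    have h3 : g y < 0 := h2
    linarith
  · intro y hy
    have h1 : y ∈ closure (Metric.ball c r) := by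
      rw [closure_ball c hrpos.ne']
      exact Metric.sphere_subset_closedBall hy
    rw [← hOm] at h1
    have h2 : g y ≤ 0 := by
      have h3 : closure (Om g) ⊆ {z | g z ≤ 0} :=
        closure_minimal (fun z hz => by
          have hz' : g z < 0 := hz
          exact hz'.le) (isClosed_le hgc continuous_const)
      exact h3 h1
    show g y = 0
    apply le_antisymm h2
    by_contra hcon
    rw [not_le] at hcon
    have h4 : y ∈ Metric.ball c r := hO2 hcon
    rw [Metric.mem_sphere] at hy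
    rw [Metric.mem_ball, hy] at h4
    exact lt_irrefl _ h4

end Pool.Agent.H472R3.NPH2
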