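import Pool.Agent.H978R3.SL.Stmts

set_option autoImplicit false

open Set Filter Topology Metric Bornology

namespace Pool.Agent.H472R3.SLB2

open Pool.Agent.H978R3.SL unitInterval

/-- The set of regular nonzero points of `G`. -/
def OO (G : ℂ → ℂ) : Set ℂ := {ζ | AnalyticAt ℂ G ζ ∧ G ζ ≠ 0}

theorem localHomeoOn (G : ℂ → ℂ)
    (h : ∀ ζ, AnalyticAt ℂ G ζ → G ζ ≠ 0 → deriv G ζ ≠ 0) :
    IsLocalHomeomorphOn G (OO G) := by
  intro ζ hζ
  have hs : HasStrictDerivAt G (deriv G ζ) ζ := hζ.1.hasStrictDerivAt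
  have hne := h ζ hζ.1 hζ.2
  refine ⟨(hs.hasStrictFDerivAt_equiv hne).toOpenPartialHomeomorph G, ?_, ?_⟩
  · exact HasStrictFDerivAt.mem_toOpenPartialHomeomorph_source _
  · rfl

theorem isOpen_OO (G : ℂ → ℂ) : IsOpen (OO G) := by
  rw [isOpen_iff_mem_nhds]
  intro ζ hζ
  have h1 : ∀ᶠ z in 𝓝 ζ, AnalyticAt ℂ G z := hζ.1.eventually_analyticAt
  have h2 : ∀ᶠ z in 𝓝 ζ, G z ≠ 0 := hζ.1.continuousAt.eventually_ne hζ.2
  filter_upwards [h1, h2] with z hz1 hz2
  exact ⟨hz1, hz2⟩

theorem localHomeo (G : ℂ → ℂ)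
    (h : ∀ ζ, AnalyticAt ℂ G ζ → G ζ ≠ 0 → deriv G ζ ≠ 0) :
    IsLocalHomeomorph (fun z : OO G => G z) := by
  rw [isLocalHomeomorph_iff_isLocalHomeomorphOn_univ]
  have h1 : IsLocalHomeomorph (Subtype.val : OO G → ℂ) :=
    (isOpen_OO G).isOpenEmbedding_subtypeVal.isLocalHomeomorph
  rw [isLocalHomeomorph_iff_isLocalHomeomorphOn_univ] at h1
  exact (localHomeoOn G h).comp h1 (fun z _ => z.2)

theorem taskB2 : TaskB2 := by
  intro G s1 ζ1 hζ1 hG1 hder hlift
  choose γ hγc hγ0 hγ using hlift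
  have homeo := localHomeo G hder
  have sep : IsSeparatedMap (fun z : OO G => G z) := T2Space.isSeparatedMap _
  let f : C(I × ℂ, ℂ) := ⟨fun x => Complex.exp (s1 + (x.1 : ℝ) * x.2), by fun_prop⟩
  let g : I × ℂ → OO G := fun x => ⟨γ x.2 x.1, (hγ x.2 x.1 x.1.2).1, by
    rw [(hγ x.2 x.1 x.1.2).2]; exact Complex.exp_ne_zero _⟩
  have g_lifts : (fun z : OO G => G z) ∘ g = f := by
    funext x
    exact (hγ x.2 x.1 x.1.2).2
  have cont_A : ∀ a, Continuous (fun t : I => g (t, a)) := by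
    intro a
    refine Continuous.subtype_mk ?_ _
    exact (hγc a).comp_continuous continuous_subtype_val (fun t => t.2)
  have cont_0 : Continuous (fun a : ℂ => g (0, a)) := by
    have : (fun a : ℂ => g (0, a)) = fun _ => ⟨ζ1, hζ1, by rw [hG1]; exact Complex.exp_ne_zero _⟩ := by
      funext a
      apply Subtype.ext
      exact hγ0 a
    rw [this]
    exact continuous_const
  have hg : Continuous g := homeo.continuous_lift sep f g_lifts cont_0 cont_A
  let Ψ : ℂ → ℂ := fun s => (g (1, s - s1) : ℂ)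
  have hΨc : Continuous Ψ := by
    have : Continuous (fun s : ℂ => g (1, s - s1)) := hg.comp (by fun_prop)
    exact continuous_subtype_val.comp this
  have hΨ : ∀ s, AnalyticAt ℂ G (Ψ s) ∧ G (Ψ s) = Complex.exp s := by
    intro s
    have h1 := hγ (s - s1) 1 ⟨zero_le_one, le_rfl⟩
    refine ⟨h1.1, ?_⟩
    have h2 := h1.2
    show G (γ (s - s1) 1) = _
    rw [h2]
    congr 1
    push_cast
    ring
  refine ⟨Ψ, ?_, ?_, hΨ⟩
  · intro s
    have hs : HasStrictDerivAt G (deriv G (Ψ s)) (Ψ s) := (hΨ s).1.hasStrictDerivAt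
    have hne : deriv G (Ψ s) ≠ 0 := hder _ (hΨ s).1 (by rw [(hΨ s).2]; exact Complex.exp_ne_zero _)
    have hL := hs.to_localInverse hne
    have hleft := (hs.hasStrictFDerivAt_equiv hne).eventually_left_inverse
    have hev : ∀ᶠ s' in 𝓝 s, Ψ s' = (HasStrictDerivAt.localInverse G (deriv G (Ψ s)) (Ψ s) hs hne)
        (Complex.exp s') := by
      have := (hΨc.continuousAt (x := s)).eventually hleft
      filter_upwards [this] with s' hs'
      rw [← (hΨ s').2]
      exact hs'.symm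
    have hd : DifferentiableAt ℂ (fun s' => (HasStrictDerivAt.localInverse G (deriv G (Ψ s)) (Ψ s)
        hs hne) (Complex.exp s')) s := by
      have h3 : DifferentiableAt ℂ (HasStrictDerivAt.localInverse G (deriv G (Ψ s)) (Ψ s) hs hne)
          (Complex.exp s) := by
        rw [← (hΨ s).2]
        exact hL.hasDerivAt.differentiableAt
      exact h3.comp s Complex.differentiable_exp.differentiableAt
    exact hd.congr_of_eventuallyEq hev
  · show (γ (s1 - s1) 1 : ℂ) = ζ1
    have hzero : s1 - s1 = 0 := sub_self _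
    have h4 : (fun t : I => g (t, s1 - s1)) = fun _ => g (0, s1 - s1) := by
      refine sep.eq_of_comp_eq homeo.isLocallyInjective (cont_A _) continuous_const ?_ 0 rfl
      funext t
      have e1 := congrFun g_lifts (t, s1 - s1)
      have e2 := congrFun g_lifts (0, s1 - s1)
      simp only [Function.comp] at e1 e2 ⊢
      rw [e1, e2]
      show Complex.exp _ = Complex.exp _
      simp
    have h5 := congrFun h4 1
    have h6 := congrArg Subtype.val h5
    show γ (s1 - s1) 1 = ζ1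
    have h7 : γ (s1 - s1) ((1 : I) : ℝ) = γ (s1 - s1) ((0 : I) : ℝ) := h6
    simpa [hγ0] using h7

end Pool.Agent.H472R3.SLB2
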