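import Pool.Agent.H684R3.USS.Stmts

set_option autoImplicit false

namespace Pool.Agent.H472R3.USSA

open Finset Pool.Agent.H692R2.USS Pool.Agent.H684R3.USS

theorem prodAll (N : ℕ) :
    ∏ n ∈ Finset.Icc 2 (N + 1), (1 - 1 / (n : ℝ) ^ 2) = ((N : ℝ) + 2) / (2 * ((N : ℝ) + 1)) := by
  induction N with
  | zero => simp
  | succ N ih =>
    rw [Finset.prod_Icc_succ_top (by omega), ih]
    push_cast
    have h1 : (N : ℝ) + 1 ≠ 0 := by positivity
    have h2 : (N : ℝ) + 1 + 1 ≠ 0 := by positivity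
    field_simp
    ring

theorem prodSub (N : ℕ) (S : Finset ℕ) (hS : S ⊆ Finset.Icc 2 (N + 1)) :
    (1 : ℝ) / 2 ≤ ∏ n ∈ S, (1 - 1 / (n : ℝ) ^ 2) := by
  have hf : ∀ n ∈ Finset.Icc 2 (N + 1), 0 ≤ (1 - 1 / (n : ℝ) ^ 2) ∧ (1 - 1 / (n : ℝ) ^ 2) ≤ 1 := by
    intro n hn
    have h2 : 2 ≤ n := (Finset.mem_Icc.1 hn).1
    have h2' : (2 : ℝ) ≤ n := by exact_mod_cast h2
    have h3 : 1 / (n : ℝ) ^ 2 ≤ 1 := by
      rw [div_le_one (by positivity)]
      nlinarith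
    have h4 : 0 ≤ 1 / (n : ℝ) ^ 2 := by positivity
    exact ⟨by linarith, by linarith⟩
  have h1 := Finset.prod_sdiff (f := fun n : ℕ => (1 - 1 / (n : ℝ) ^ 2)) hS
  have h2 : ∏ n ∈ Finset.Icc 2 (N + 1) \ S, (1 - 1 / (n : ℝ) ^ 2) ≤ 1 := by
    apply Finset.prod_le_one
    · intro i hi
      exact (hf i (Finset.sdiff_subset hi)).1
    · intro i hi
      exact (hf i (Finset.sdiff_subset hi)).2
  have h3 : 0 ≤ ∏ n ∈ S, (1 - 1 / (n : ℝ) ^ 2) :=
    Finset.prod_nonneg (fun i hi => (hf i (hS hi)).1)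
  have h4 : (1 : ℝ) / 2 ≤ ∏ n ∈ Finset.Icc 2 (N + 1), (1 - 1 / (n : ℝ) ^ 2) := by
    rw [prodAll, div_le_div_iff₀ (by positivity) (by positivity)]
    nlinarith [Nat.cast_nonneg (α := ℝ) N]
  rw [← h1] at h4
  nlinarith

theorem sigma_lower {a : ℕ} (ha : a ≠ 0) :
    (a : ℝ) * ∏ p ∈ a.primeFactors, (1 + 1 / (p : ℝ)) ≤ ((∑ d ∈ a.divisors, d : ℕ) : ℝ) := by
  have h0 : (a : ℝ) = ∏ p ∈ a.primeFactors, (p : ℝ) ^ (a.factorization p) := by
    conv_lhs => rw [← Nat.prod_factorization_pow_eq_self ha]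
    rw [Finsupp.prod, Nat.support_factorization]
    push_cast
    rfl
  rw [Nat.sum_divisors ha]
  push_cast
  conv_lhs => rw [h0]
  rw [← Finset.prod_mul_distrib]
  apply Finset.prod_le_prod
  · intro p hp
    positivity
  · intro p hp
    have hpp := Nat.prime_of_mem_primeFactors hp
    have hd := Nat.dvd_of_mem_primeFactors hp
    have hv : 1 ≤ a.factorization p := (hpp.dvd_iff_one_le_factorization ha).1 hd
    obtain ⟨v, hv'⟩ : ∃ v, a.factorization p = v + 1 := ⟨a.factorization p - 1, by omega⟩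
    rw [hv', Finset.sum_range_succ, Finset.sum_range_succ]
    have hp0 : (p : ℝ) ≠ 0 := by exact_mod_cast hpp.ne_zero
    have : (p : ℝ) ^ (v + 1) * (1 + 1 / (p : ℝ)) = (p : ℝ) ^ v + (p : ℝ) ^ (v + 1) := by
      field_simp
      ring
    rw [this]
    have : 0 ≤ ∑ k ∈ Finset.range v, (p : ℝ) ^ k := by positivity
    linarith

theorem key {a : ℕ} (ha : a ≠ 0) :
    (a : ℝ) ^ 2 ≤ 2 * (Nat.totient a : ℝ) * ((∑ d ∈ a.divisors, d : ℕ) : ℝ) := by
  have h1 := sigma_lower ha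
  have h2 : (Nat.totient a : ℝ) = a * ∏ p ∈ a.primeFactors, (1 - 1 / (p : ℝ)) := by
    have := Nat.totient_eq_mul_prod_factors a
    have h := congrArg (fun q : ℚ => (q : ℝ)) this
    push_cast at h
    rw [h]
    simp only [one_div]
  obtain ⟨N, rfl⟩ : ∃ N, a = N + 1 := ⟨a - 1, by omega⟩
  set a := N + 1 with hadef
  have h3 : (1 : ℝ) / 2 ≤ ∏ n ∈ a.primeFactors, (1 - 1 / (n : ℝ) ^ 2) := by
    apply prodSub N
    intro p hp
    rw [Finset.mem_Icc]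
    exact ⟨(Nat.prime_of_mem_primeFactors hp).two_le, Nat.le_of_mem_primeFactors hp⟩
  have h4 : (∏ p ∈ a.primeFactors, (1 - 1 / (p : ℝ))) * ∏ p ∈ a.primeFactors, (1 + 1 / (p : ℝ)) =
      ∏ n ∈ a.primeFactors, (1 - 1 / (n : ℝ) ^ 2) := by
    rw [← Finset.prod_mul_distrib]
    apply Finset.prod_congr rfl
    intro p hp
    have hp0 : (p : ℝ) ≠ 0 := by exact_mod_cast (Nat.prime_of_mem_primeFactors hp).ne_zero
    field_simp
    ring
  have h5 : 0 ≤ (Nat.totient a : ℝ) := by positivity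
  calc (a : ℝ) ^ 2 = 2 * (a : ℝ) ^ 2 * (1 / 2) := by ring
    _ ≤ 2 * (a : ℝ) ^ 2 * ∏ n ∈ a.primeFactors, (1 - 1 / (n : ℝ) ^ 2) := by gcongr
    _ = 2 * (Nat.totient a : ℝ) * (a * ∏ p ∈ a.primeFactors, (1 + 1 / (p : ℝ))) := by
      rw [← h4, h2]; ring
    _ ≤ 2 * (Nat.totient a : ℝ) * ((∑ d ∈ a.divisors, d : ℕ) : ℝ) := by gcongr

theorem sum_sigma (N : ℕ) : ∑ a ∈ Finset.Ioc 0 N, ∑ d ∈ a.divisors, d ≤ N * N := by
  have h1 : ∀ a ∈ Finset.Ioc 0 N, ∑ d ∈ a.divisors, d =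
      ∑ d ∈ Finset.Ioc 0 N, if d ∣ a then d else 0 := by
    intro a ha
    rw [← Finset.sum_filter]
    apply Finset.sum_congr _ (fun _ _ => rfl)
    ext d
    rw [Nat.mem_divisors, Finset.mem_filter, Finset.mem_Ioc]
    rw [Finset.mem_Ioc] at ha
    constructor
    · rintro ⟨h, h'⟩
      exact ⟨⟨Nat.pos_of_dvd_of_pos h ha.1, (Nat.le_of_dvd ha.1 h).trans ha.2⟩, h⟩
    · rintro ⟨_, h⟩
      exact ⟨h, by omega⟩
  rw [Finset.sum_congr rfl h1, Finset.sum_comm]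
  calc ∑ d ∈ Finset.Ioc 0 N, ∑ a ∈ Finset.Ioc 0 N, (if d ∣ a then d else 0)
      = ∑ d ∈ Finset.Ioc 0 N, (N / d) * d := by
        apply Finset.sum_congr rfl
        intro d _
        rw [← Finset.sum_filter, Finset.sum_const, Nat.Ioc_filter_dvd_card_eq_div, smul_eq_mul]
    _ ≤ ∑ d ∈ Finset.Ioc 0 N, N := Finset.sum_le_sum (fun d _ => Nat.div_mul_le_self N d)
    _ = N * N := by simp

theorem taskA : TaskA := by
  refine ⟨8, by norm_num, fun r => ?_⟩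
  set A : ℕ := 2 ^ r with hA
  have hApos : 0 < A := by positivity
  have hA2 : 2 ^ (r + 1) = 2 * A := by rw [hA, pow_succ]; ring
  rw [hA2]
  have hAR : (0 : ℝ) < A := by exact_mod_cast hApos
  have h1 : ∀ a ∈ Finset.Ico A (2 * A), (1 : ℝ) / (Nat.totient a) ≤
      2 / (A : ℝ) ^ 2 * ((∑ d ∈ a.divisors, d : ℕ) : ℝ) := by
    intro a ha
    rw [Finset.mem_Ico] at ha
    have ha0 : a ≠ 0 := by omega
    have hk := key ha0
    have hphi : (0 : ℝ) < Nat.totient a := by exact_mod_cast Nat.totient_pos.2 (by omega)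
    have haA : (A : ℝ) ^ 2 ≤ (a : ℝ) ^ 2 := by
      have : (A : ℝ) ≤ a := by exact_mod_cast ha.1
      gcongr
    rw [div_le_iff₀ hphi, div_mul_eq_mul_div, div_mul_eq_mul_div, le_div_iff₀ (by positivity)]
    calc (1 : ℝ) * (A : ℝ) ^ 2 ≤ (a : ℝ) ^ 2 := by linarith
      _ ≤ _ := hk
      _ = _ := by ring
  calc ∑ a ∈ Finset.Ico A (2 * A), (1 : ℝ) / (Nat.totient a)
      ≤ ∑ a ∈ Finset.Ico A (2 * A), 2 / (A : ℝ) ^ 2 * ((∑ d ∈ a.divisors, d : ℕ) : ℝ) :=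
        Finset.sum_le_sum h1
    _ = 2 / (A : ℝ) ^ 2 * ((∑ a ∈ Finset.Ico A (2 * A), ∑ d ∈ a.divisors, d : ℕ) : ℝ) := by
        rw [← Finset.mul_sum]; push_cast; rfl
    _ ≤ 2 / (A : ℝ) ^ 2 * (((2 * A) * (2 * A) : ℕ) : ℝ) := by
        have h2 : ∑ a ∈ Finset.Ico A (2 * A), ∑ d ∈ a.divisors, d ≤ (2 * A) * (2 * A) := by
          refine le_trans (Finset.sum_le_sum_of_subset ?_) (sum_sigma (2 * A))
          intro a ha
          rw [Finset.mem_Ico] at ha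
          rw [Finset.mem_Ioc]
          omega
        gcongr
    _ = 8 := by
        push_cast
        field_simp
        ring

end Pool.Agent.H472R3.USSA
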